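import Pool.Agent.Lib.MP_d8f801_lc.SC.G.Case1
import Pool.Agent.Lib.MP_d8f801_lc.SC.K.ZrInd

/-!
# SC/G: candidates exist (module G-Cand)

* `cand_tr`: for `x ∈ p.x \ N` (countably many) and `ξ ∈ N` (countably many) there is at most one `γ` with `Ind N γ` and `ev ξ γ = x` (`nx_inj`), so all but countably many `γ ∈ G` satisfy `∀ x ∈ p.x, x ∈ nx N γ → x ∈ N`.
* `exists_cand`. For `a ∈ AA N p` `N ⊆ Zr a`: `aa_sub_zr` for type A; for type B `N = p.b a = hul a (p.b a ∩ Iio kk) ⊆ hul a (Iio (lam a)) = Zr a` (`Bok.b2`, `Bok.b2'`, `hul_mono`).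
  If `AA N p` is empty: the set of `γ` with `Ind N γ` belongs to the ultrafilter (`ind_ev`), so it is not countable (`uf_unc`); `cand_tr`. Otherwise let `a* ∈ AA N p` have minimal `lam a*` (`WellFounded.min` for the set of the `lam a`, `a ∈ AA N p`).
  `zr_ind` for `a*` (countable) gives `D`; by `lam_cof` the set `G` of the `γ ∈ Bst a*`, `γ < lam a*`, above `D` is not countable; all `γ ∈ G` satisfy `Ind N γ`, and `x < lam a*` for `x ∈ nx N γ`, `x < kk`; for `a ∈ AA N p`: `lam a* ≤ lam a`, and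
  `nx N γ ⊆ hul a (Iio (lam a)) = Zr a` by `nx_sub_hul` (`N ⊆ Zr a`, `γ < lam a* ≤ lam a`). `cand_tr` gives a `γ ∈ G` with `tr`.
-/

set_option autoImplicit false

universe u

namespace Pool.MP_d8f801_lc.SC

open Cardinal Set Filter

variable {X : Type u} [Stg X]

theorem cand_tr : ∀ᶠ N in club X, ∀ x : Set X, x.Countable → ∀ G : Set X, ¬ G.Countable → (∀ γ ∈ G, Ind N γ) →
    ∃ γ ∈ G, ∀ z ∈ x, z ∈ nx N γ → z ∈ N := by
  filter_upwards [nx_inj (X := X), club_ctbl] with N h1 hN x hx G hG hI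
  by_contra hcon
  push Not at hcon
  apply hG
  have h2 : (⋃ z ∈ x, ⋃ ξ ∈ N, {γ | z ∉ N ∧ Ind N γ ∧ ev ξ γ = z}).Countable := by
    refine hx.biUnion fun z _ => hN.biUnion fun ξ hξ => ?_
    refine Set.Subsingleton.countable ?_
    rintro γ ⟨g1, g2, g3⟩ γ' ⟨g4, g5, g6⟩
    exact h1 ξ hξ z g1 γ γ' g2 g5 g3 g6
  refine h2.mono fun γ hγ => ?_
  obtain ⟨z, hz, ⟨ξ, hξ, h3⟩, h4⟩ := hcon γ hγ
  simp only [mem_iUnion]
  exact ⟨z, hz, ξ, hξ, h4, hI γ hγ, h3⟩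

theorem exists_cand (ty : Bool) : ∀ᶠ N in club X, ∀ p : Pre X, Ok ty p → Gn ty N p →
    (ty = true → ∀ a ∈ AA N p, p.b a = N) → ∃ γ, Cand N γ p := by
  filter_upwards [aa_sub_zr (X := X), cand_tr (X := X), zr_ind (X := X), club_ctbl] with N h1 h2 h3 hN p hp hg hAA
  have hZ : ∀ a ∈ AA N p, N ⊆ Zr a := by
    intro a ha
    cases ty with
    | false => exact h1 p hp hg a ha
    | true =>
      have hB := hp.bok ha.1
      rw [← hAA rfl a ha, hB.b2]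
      exact hul_mono Subset.rfl fun ξ hξ => hB.b2' ξ hξ.1 hξ.2
  by_cases hne : (AA N p).Nonempty
  · have hne' : {l : X | ∃ a ∈ AA N p, lam a = l}.Nonempty := by
      obtain ⟨a, ha⟩ := hne
      exact ⟨lam a, a, ha, rfl⟩
    obtain ⟨a, ha, hla⟩ := Stg.wfl.min_mem _ hne'
    have hmin : ∀ a' ∈ AA N p, lam a ≤ lam a' := by
      intro a' ha'
      rw [hla]
      exact not_lt.1 (Stg.wfl.not_lt_min _ (show lam a' ∈ {l : X | ∃ a ∈ AA N p, lam a = l} from ⟨a', ha', rfl⟩))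
    have hac : a.Countable := hN.mono ha.2.1
    obtain ⟨D, hD, hD2, hD3⟩ := h3 a hac (hZ a ha)
    obtain ⟨γ, ⟨g1, g2, g3⟩, g4⟩ := h2 p.x hp.fit.xc _ (lam_cof hac hD hD2) fun γ hγ => (hD3 γ hγ.1 hγ.2.1 hγ.2.2).1
    obtain ⟨k1, k2, k3⟩ := hD3 γ g1 g2 g3
    exact ⟨γ, k1, g4, fun a' ha' => nx_sub_hul (hZ a' ha') (lt_of_lt_of_le g2 (hmin a' ha')),
      fun a' ha' x hx hxk => lt_of_lt_of_le (k2 x hx hxk) (hmin a' ha')⟩
  · obtain ⟨y, hy, hy2⟩ := uf_unc (ind_ev hN)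
    obtain ⟨γ, g1, g2⟩ := h2 p.x hp.fit.xc {γ | Ind N γ} (fun hc => hy2 (hc.mono inter_subset_left)) fun γ hγ => hγ
    exact ⟨γ, g1, g2, fun a ha => absurd ⟨a, ha⟩ hne, fun a ha => absurd ⟨a, ha⟩ hne⟩

end Pool.MP_d8f801_lc.SC
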