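import Pool.Agent.Lib.MP_d8f801_lc.SC.G.Dense
import Pool.Agent.Lib.MP_d8f801_lc.SC.K.Trans

/-!
# SC/G: type B, the first case (module G-Case1)

* `aa_sub_b`: let `a ∈ AA N p`, `ξ ∈ N`, `ξ ∉ p.b a`. `N ⊆ p.x` (`gn_pts`), so by `K` there is `α ∈ a ⊆ N` with `dl a ≤ p.F α ξ`. But `p.F α ξ ∈ N` (`gn_F`), `p.F α ξ < w1` (`Fv`), so `p.F α ξ < dl N = dl a` (`Gd.tr`).
* `aa_sub_zr`: the same for type A and `Zr a`.
* `case1`: let `B = p.b a ∩ Iio kk`: `a ⊆ N ⊆ p.b a = hul a B` (`Bok.b2`). Choose functions `W1 W2 W3 : X → X → X` such that for `τ = dc x` with `Ok true τ` and `¬ Inc true y τ` there are `s`, `v`, `r` with `(s, v) ∈ en y`, `Ok true s`, `Ok true r`, `Le r τ`,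
  `Le r s`, `W1 y x = cd s`, `W2 y x = v`, `W3 y x = cd r`, and `W4 : X → X` with `W4 x < w1` and `dl a' < W4 x` for all promises `a'` of `dc x`, if `dc x` is a condition (`bd_hgt`). By `hul_transfer2`, `hul_transfer` `p.b a` is closed under these functions and under
  `ev` (`W x y = ev x y`). For a condition `s` with `cd s ∈ p.b a`: `W4 (cd s) ∈ p.b a`, so `W4 (cd s) < dl a` (`Bok.b3`), so `OkH true (dl a) s` (`okH_iff_ok`). Let `y ∈ p.b a`; `Bok.b5` gives `τ` with `cd τ ∈ p.b a`, `Ok true τ`, `Le p τ`, and one of two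
  alternatives. The first one gives `DciN`. In the second case `Inc true y τ` (otherwise `W1 y (cd τ)`, ... contradict it), so `DciN`.
  `nx N γ ⊆ p.b a` for `γ ∈ p.b a`, `γ < kk`: closed under `ev`. `i ∈ p.b a`, `i < w1`: `i < dl a = dl N` (`Bok.b3`), so `i ∈ N` (`dl_sub`).
-/

set_option autoImplicit false

universe u

namespace Pool.MP_d8f801_lc.SC

open Cardinal Set Filter

variable {X : Type u} [Stg X]

theorem aa_sub_b : ∀ᶠ N in club X, ∀ p : Pre X, Ok true p → Gn true N p → ∀ a ∈ AA N p, N ⊆ p.b a := by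
  filter_upwards [gn_pts (X := X) true, gn_F (X := X) true, gd_club (X := X) true] with N h1 h2 h3 p hp hg a ha ξ hξ
  by_contra hn
  obtain ⟨α, hα, hle⟩ := hp.bas.K a ha.1 ξ ((h1 p hg).1 hξ) (by simpa [Pre.reg] using hn)
  have h4 := h2 p hg α (ha.2.1 hα) ξ hξ
  have h5 := h3.tr _ h4 (hp.bas.Fv α ξ)
  rw [ha.2.2] at hle
  exact absurd (lt_of_lt_of_le h5 hle) (lt_irrefl _)

theorem aa_sub_zr : ∀ᶠ N in club X, ∀ p : Pre X, Ok false p → Gn false N p → ∀ a ∈ AA N p, N ⊆ Zr a := by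
  filter_upwards [gn_pts (X := X) false, gn_F (X := X) false, gd_club (X := X) false] with N h1 h2 h3 p hp hg a ha ξ hξ
  by_contra hn
  obtain ⟨α, hα, hle⟩ := hp.bas.K a ha.1 ξ ((h1 p hg).1 hξ) (by simpa [Pre.reg] using hn)
  have h4 := h2 p hg α (ha.2.1 hα) ξ hξ
  have h5 := h3.tr _ h4 (hp.bas.Fv α ξ)
  rw [ha.2.2] at hle
  exact absurd (lt_of_lt_of_le h5 hle) (lt_irrefl _)

theorem case1 : ∀ᶠ N in club X, ∀ p : Pre X, Ok true p → Gn true N p → ∀ a ∈ AA N p,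
    Gn true (p.b a) p ∧ N ⊆ p.b a ∧ (∀ γ ∈ p.b a, γ < kk → nx N γ ⊆ p.b a) ∧ ∀ i ∈ p.b a, i < w1 → i ∈ N := by
  have hW : ∀ y x : X, ∃ u v w : X, Ok true (dc x) → ¬ Inc true y (dc x) →
      ∃ s r, (s, v) ∈ en y ∧ Ok true s ∧ Ok true r ∧ Le r (dc x) ∧ Le r s ∧ u = cd s ∧ w = cd r := by
    intro y x
    by_cases h : Ok true (dc x) ∧ ¬ Inc true y (dc x)
    · have h2 := h.2
      unfold Inc at h2
      push Not at h2
      obtain ⟨s, v, h3, h4, r, h5, h6, h7⟩ := h2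
      exact ⟨cd s, v, cd r, fun _ _ => ⟨s, r, h3, h4, h5, h6, h7, rfl, rfl⟩⟩
    · exact ⟨⊥, ⊥, ⊥, fun h1 h2 => absurd ⟨h1, h2⟩ h⟩
  choose W1 W2 W3 hW using hW
  have hW4 : ∀ x : X, ∃ w : X, w < w1 ∧ (Ok true (dc x) → ∀ a' ∈ (dc x).S, dl a' < w) := by
    intro x
    by_cases h : Ok true (dc x)
    · obtain ⟨η, h1, h2, h3⟩ := bd_hgt h.fit.Sc h.Sct (bot_lt_w1 (X := X))
      exact ⟨η, h1, fun _ => h3⟩
    · exact ⟨⊥, bot_lt_w1, fun h1 => absurd h1 h⟩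
  choose W4 hW4 hW4' using hW4
  filter_upwards [aa_sub_b (X := X), hul_transfer2 W1, hul_transfer2 W3, hul_transfer W4,
    hul_transfer2 (ev (X := X))] with N hN hT1 hT3 hT4 hTe p hp hg a ha
  have hB := hp.bok ha.1
  have hNb := hN p hp hg a ha
  have hNB : N ⊆ hul a (p.b a ∩ Iio kk) := by rw [← hB.b2]; exact hNb
  have c1 := hT1 a (p.b a ∩ Iio kk) ha.2.1 inter_subset_right hNB
  have c3 := hT3 a (p.b a ∩ Iio kk) ha.2.1 inter_subset_right hNB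
  have c4 := hT4 a (p.b a ∩ Iio kk) ha.2.1 inter_subset_right hNB
  have ce := hTe a (p.b a ∩ Iio kk) ha.2.1 inter_subset_right hNB
  rw [← hB.b2] at c1 c3 c4 ce
  have hok : ∀ s : Pre X, Ok true s → cd s ∈ p.b a → OkH true (dl a) s := by
    intro s hs hcs
    refine okH_iff_ok.2 ⟨hs, fun a' ha' => ?_⟩
    have h1 := hB.b3 _ (c4 _ hcs) (hW4 _)
    have h2 := hW4' (cd s)
    rw [dc_cd hs.fitE] at h2
    exact (h2 hs a' ha').trans h1
  refine ⟨fun y hy => ?_, hNb, fun γ hγ hγk x hx => ?_, fun i hi hiw => ?_⟩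
  · obtain ⟨τ, h1, h2, h3, h4, h5, h6⟩ := hB.b5 y hy
    have h3' := (okH_iff_ok.1 h3).1
    refine ⟨τ, ⟨h3', h2⟩, h5, ?_⟩
    rcases h6 with ⟨s, v, g1, g2, g3, g4, g5⟩ | h6
    · exact Or.inl ⟨s, v, g1, ⟨(okH_iff_ok.1 g4).1, g2⟩, g3, g5⟩
    · right
      by_contra hinc
      have h7 := hW y (cd τ)
      rw [dc_cd h3'.fitE] at h7
      obtain ⟨s, r, g1, g2, g3, g4, g5, g6, g7⟩ := h7 h3' hinc
      have e1 : cd s ∈ p.b a := g6 ▸ c1 y hy (cd τ) h2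
      have e2 : cd r ∈ p.b a := g7 ▸ c3 y hy (cd τ) h2
      exact h6 s _ g1 e1 (hok s g2 e1) ⟨r, e2, hok r g3 e2, g4, g5⟩
  · obtain ⟨ξ, hξ, rfl⟩ := hx
    exact ce ξ (hNb hξ) γ hγ
  · have h1 := hB.b3 i hi hiw
    rw [ha.2.2] at h1
    exact dl_sub h1

end Pool.MP_d8f801_lc.SC
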