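import Pool.Agent.Lib.MP_d8f801_lc.SC.G.Defs

/-!
# SC/G: closure properties of almost all `N` (module G-Close)

* `cd_choiceL`: `club_choiceL` for `R' l z := ∃ s, Ok ty s ∧ cd s = z ∧ R l s` (proved).
* `gd_club`: the conjunction of statements, each of which holds for club many `N`:
  `ct`: `club_ctbl`; `tr`: `tr1_club`; `b`, `w`, `k`: `club_mem`; `ev`: `club_fn2`; `x`: `club_set` for `f y := (dc y).x` if `dc y` is a condition
  (and `∅` otherwise), `dc_cd`; `F`, `c`: `club_fn3` for `(y, α, ξ) ↦ (dc y).F α ξ`; `S`: `club_set` for the countable sets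
  `f y := {dl a | a ∈ (dc y).S} ∪ {lam a | a ∈ (dc y).S}` (`Fit.Sc`), and `dl a < dl N` follows from `dl a ∈ N`, `dl a < w1` (`dl_lt`) by `tr`; `okH`: `okH_iff_ok`
  and `S`; `ns`: `Iio w1` is not countable, so for a condition `s` there is `i < w1` outside `s.x`, and by `club_choice` there is one
  in `N`; `dec`, `inc`: `club_choice2` for relations `R y z (code of s)`... (choose `s`, `v` and `r` one after the other, or use
  chosen functions `(y, cd τ) ↦ cd s`, `v`, `cd r` and `club_fn2`); `bd`: a function `(cd s, cd r, δ) ↦ η` (`bd_hgt`) and `club_fn3`; `mx`: `club_fn3`.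
* `ex_club`: `nx_sub`, `nx_dl`, `nx_below` (`β < γ` for `β ∈ N`, `β < kk`).
* `gd_nx`: `nx_lift` (proved).
-/

set_option autoImplicit false

universe u

namespace Pool.MP_d8f801_lc.SC

open Cardinal Set Filter

variable {X : Type u} [Stg X]

theorem cd_choiceL (ty : Bool) (R : List X → Pre X → Prop) : ∀ᶠ N in club X, ∀ l : List X, (∀ x ∈ l, x ∈ N) →
    (∃ s, Ok ty s ∧ R l s) → ∃ s, Cd ty N s ∧ R l s := by
  filter_upwards [club_choiceL (fun l (z : X) => ∃ s, Ok ty s ∧ cd s = z ∧ R l s)] with N hN l hl h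
  obtain ⟨s, h1, h2⟩ := h
  obtain ⟨z, hz, s', h3, rfl, h4⟩ := hN l hl ⟨cd s, s, h1, rfl, h2⟩
  exact ⟨s', ⟨h3, hz⟩, h4⟩

theorem cd_choice1 (ty : Bool) (R : X → Pre X → Prop) : ∀ᶠ N in club X, ∀ x ∈ N,
    (∃ s, Ok ty s ∧ R x s) → ∃ s, Cd ty N s ∧ R x s := by
  filter_upwards [cd_choiceL ty fun l s => R (l.getD 0 ⊥) s] with N hN x hx h
  exact hN [x] (by simpa using hx) h

theorem cd_choice2 (ty : Bool) (R : X → X → Pre X → Prop) : ∀ᶠ N in club X, ∀ x ∈ N, ∀ y ∈ N,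
    (∃ s, Ok ty s ∧ R x y s) → ∃ s, Cd ty N s ∧ R x y s := by
  filter_upwards [cd_choiceL ty fun l s => R (l.getD 0 ⊥) (l.getD 1 ⊥) s] with N hN x hx y hy h
  exact hN [x, y] (by simp [hx, hy]) h

private theorem gcl_set (ty : Bool) (f : Pre X → Set X) (hf : ∀ s, Ok ty s → (f s).Countable) :
    ∀ᶠ N in club X, ∀ s, Cd ty N s → f s ⊆ N := by
  have h := club_set (fun y : X => {z | Ok ty (dc y) ∧ z ∈ f (dc y)}) (by
    intro y
    by_cases h1 : Ok ty (dc y)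
    · exact (hf _ h1).mono fun z hz => hz.2
    · exact countable_empty.mono fun z hz => absurd hz.1 h1)
  filter_upwards [h] with N hN s hs z hz
  refine hN (cd s) hs.2 ?_
  rw [mem_ofPred_eq, dc_cd hs.1.fitE]
  exact ⟨hs.1, hz⟩

private theorem gcl_x (ty : Bool) : ∀ᶠ N in club X, ∀ s, Cd ty N s → s.x ⊆ N :=
  gcl_set ty (fun s => s.x) fun _ hs => hs.fit.xc

private theorem gcl_F (ty : Bool) : ∀ᶠ N in club X, ∀ s, Cd ty N s → ∀ α ∈ N, ∀ ξ ∈ N, s.F α ξ ∈ N := by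
  filter_upwards [club_fn3 fun y α ξ : X => (dc y).F α ξ] with N hN s hs α hα ξ hξ
  have h := hN (cd s) hs.2 α hα ξ hξ
  rwa [dc_cd hs.1.fitE] at h

private theorem gcl_c (ty : Bool) : ∀ᶠ N in club X, ∀ s, Cd ty N s → ∀ α ∈ N, ∀ ξ ∈ N, s.c α ξ ∈ N := by
  filter_upwards [club_fn3 fun y α ξ : X => (dc y).c α ξ] with N hN s hs α hα ξ hξ
  have h := hN (cd s) hs.2 α hα ξ hξ
  rwa [dc_cd hs.1.fitE] at h

private theorem gcl_S (ty : Bool) : ∀ᶠ N in club X, ∀ s, Cd ty N s → ∀ a ∈ s.S,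
    dl a ∈ N ∧ dl a < dl N ∧ lam a ∈ N := by
  filter_upwards [tr1_club, gcl_set ty (fun s : Pre X => dl '' s.S ∪ lam '' s.S)
    fun _ hs => (hs.fit.Sc.image _).union (hs.fit.Sc.image _)] with N htr hN s hs a ha
  have h1 : dl a ∈ N := hN s hs (Or.inl ⟨a, ha, rfl⟩)
  exact ⟨h1, htr _ h1 (dl_lt (hs.1.Sct a ha)), hN s hs (Or.inr ⟨a, ha, rfl⟩)⟩

private theorem gcl_ns (ty : Bool) : ∀ᶠ N in club X, ∀ s, Cd ty N s → ¬ N ⊆ s.x := by
  filter_upwards [club_choice fun y z : X => z ∉ (dc y).x] with N hN s hs hsub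
  have hex : ∃ z : X, z ∉ s.x := by
    by_contra hcon
    push Not at hcon
    exact Stg.w1_unc (hs.1.fit.xc.mono fun z _ => hcon z)
  have h := hN (cd s) hs.2
  rw [dc_cd hs.1.fitE] at h
  obtain ⟨z, h1, h2⟩ := h hex
  exact h2 (hsub h1)

private theorem gcl_dec (ty : Bool) : ∀ᶠ N in club X, ∀ y ∈ N, ∀ τ, Cd ty N τ → Dci ty y τ →
    DciN ty N y τ := by
  filter_upwards [cd_choice2 ty fun y z s => ∃ v, (s, v) ∈ en y ∧ Le (dc z) s,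
    club_choice2 fun y w v : X => (dc w, v) ∈ en y] with N h1 h2 y hy τ hτ h
  rcases h with ⟨s, v, h3, h4, h5⟩ | h
  · have h6 := h1 y hy (cd τ) hτ.2
    rw [dc_cd hτ.1.fitE] at h6
    obtain ⟨s', hs', ⟨v', h7⟩, h8⟩ : ∃ s', Cd ty N s' ∧ (∃ v', (s', v') ∈ en y) ∧ Le τ s' := by
      obtain ⟨s', h9, v', h10, h11⟩ := h6 ⟨s, h4, v, h3, h5⟩
      exact ⟨s', h9, ⟨v', h10⟩, h11⟩
    have h9 := h2 y hy (cd s') hs'.2
    rw [dc_cd hs'.1.fitE] at h9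
    obtain ⟨v'', h10, h11⟩ := h9 ⟨v', h7⟩
    exact Or.inl ⟨s', v'', h11, hs', h10, h8⟩
  · exact Or.inr h

private theorem gcl_inc (ty : Bool) : ∀ᶠ N in club X, ∀ y ∈ N, ∀ τ, Cd ty N τ → ¬ Inc ty y τ →
    ∃ s v r, (s, v) ∈ en y ∧ Cd ty N s ∧ v ∈ N ∧ Cd ty N r ∧ Le r τ ∧ Le r s := by
  filter_upwards [cd_choice2 ty fun y z s => (∃ v, (s, v) ∈ en y) ∧ ∃ r, Ok ty r ∧ Le r (dc z) ∧ Le r s,
    club_choice2 fun y w v : X => (dc w, v) ∈ en y,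
    cd_choice2 ty fun z w r => Le r (dc z) ∧ Le r (dc w)] with N h1 h2 h3 y hy τ hτ h
  have h' : ∃ s v, (s, v) ∈ en y ∧ Ok ty s ∧ ∃ r, Ok ty r ∧ Le r τ ∧ Le r s := by
    by_contra hcon
    refine h fun s v h4 h5 h6 => hcon ⟨s, v, h4, h5, h6⟩
  obtain ⟨s, v, h4, h5, h6⟩ := h'
  have h7 := h1 y hy (cd τ) hτ.2
  rw [dc_cd hτ.1.fitE] at h7
  obtain ⟨s', hs', ⟨v', h8⟩, r', h9⟩ := h7 ⟨s, h5, ⟨v, h4⟩, h6⟩
  have h10 := h2 y hy (cd s') hs'.2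
  rw [dc_cd hs'.1.fitE] at h10
  obtain ⟨v'', h11, h12⟩ := h10 ⟨v', h8⟩
  have h13 := h3 (cd τ) hτ.2 (cd s') hs'.2
  rw [dc_cd hτ.1.fitE, dc_cd hs'.1.fitE] at h13
  obtain ⟨r'', h14, h15, h16⟩ := h13 ⟨r', h9⟩
  exact ⟨s', v'', r'', h12, hs', h11, h14, h15, h16⟩

private theorem gcl_bd (ty : Bool) : ∀ᶠ N in club X, ∀ s, Cd ty N s → ∀ r, Cd ty N r → ∀ δ ∈ N, δ < w1 →
    ∃ η ∈ N, η < w1 ∧ δ < η ∧ (∀ a ∈ s.S, dl a < η) ∧ ∀ a ∈ r.S, dl a < η := by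
  filter_upwards [club_choice3 fun y z δ η : X => η < w1 ∧ δ < η ∧ (∀ a ∈ (dc y).S, dl a < η) ∧
    ∀ a ∈ (dc z).S, dl a < η] with N hN s hs r hr δ hδ hδw
  have h := hN (cd s) hs.2 (cd r) hr.2 δ hδ
  rw [dc_cd hs.1.fitE, dc_cd hr.1.fitE] at h
  refine h ?_
  obtain ⟨η, h1, h2, h3⟩ := bd_hgt (A := s.S ∪ r.S) (hs.1.fit.Sc.union hr.1.fit.Sc) (by
    rintro a (ha | ha)
    · exact hs.1.Sct a ha
    · exact hr.1.Sct a ha) hδw
  exact ⟨η, h1, h2, fun a ha => h3 a (Or.inl ha), fun a ha => h3 a (Or.inr ha)⟩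

private theorem gcl_mx (ty : Bool) : ∀ᶠ N in club X, ∀ s, Cd ty N s → ∀ r, Cd ty N r → ∀ η ∈ N,
    cd (mx s r η) ∈ N := by
  filter_upwards [club_fn3 fun y z η : X => cd (mx (dc y) (dc z) η)] with N hN s hs r hr η hη
  have h := hN (cd s) hs.2 (cd r) hr.2 η hη
  rwa [dc_cd hs.1.fitE, dc_cd hr.1.fitE] at h

theorem gd_club (ty : Bool) : ∀ᶠ N in club X, Gd ty N := by
  filter_upwards [club_ctbl, tr1_club, club_mem ⊥, club_mem w1, club_mem kk, club_fn2 ev, gcl_x ty,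
    gcl_F ty, gcl_c ty, gcl_S ty, gcl_ns ty, gcl_dec ty, gcl_inc ty, gcl_bd ty, gcl_mx ty] with
    N h1 h2 h3 h4 h5 h6 h7 h8 h9 h10 h11 h12 h13 h14 h15
  exact ⟨h1, h2, h3, h4, h5, h6, h7, h8, h9, h10,
    fun s hs => okH_iff_ok.2 ⟨hs.1, fun a ha => (h10 s hs a ha).2.1⟩, h11, h12, h13, h14, h15⟩

theorem gd_nx (ty : Bool) : ∀ᶠ N in club X, ∀ γ, γ < kk → Gd ty (nx N γ) := nx_lift (gd_club ty)

theorem ex_club : ∀ᶠ N in club X, ∀ γ, Ind N γ → Ex N (nx N γ) := by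
  filter_upwards [nx_sub, nx_dl, nx_below] with N h1 h2 h3 γ hγ
  refine ⟨(h1 γ hγ.1).1, fun i hi h => ((h2 γ hγ).2.2 i hi).1 h, (h2 γ hγ).1, fun x hx β hβ hk hlt => ?_⟩
  exact (h3 γ hγ).2 x hx (hlt.trans ((h3 γ hγ).1 β hβ hk))

end Pool.MP_d8f801_lc.SC
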