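import Pool.Agent.Lib.MP_d8f801_lc.SC.C.CC
import Pool.Agent.Lib.MP_d8f801_lc.SC.C.Add
import Pool.Agent.Lib.MP_d8f801_lc.SC.C.Seq
import Pool.Agent.Lib.MP_d8f801_lc.SC.K.Nx

/-!
# SC/G: genericity over a countable set (definitions)
-/

set_option autoImplicit false

universe u

namespace Pool.MP_d8f801_lc.SC

open Cardinal Set Filter

variable {X : Type u} [Stg X]

/-- `s` is a condition coded in `N` -/
def Cd (ty : Bool) (N : Set X) (s : Pre X) : Prop := Ok ty s ∧ cd s ∈ N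

/-- `q` is incompatible with all first coordinates of elements of `en y` -/
def Inc (ty : Bool) (y : X) (q : Pre X) : Prop :=
  ∀ s v, (s, v) ∈ en y → Ok ty s → ¬ ∃ r, Ok ty r ∧ Le r q ∧ Le r s

/-- `q` decides `y` -/
def Dci (ty : Bool) (y : X) (q : Pre X) : Prop := (∃ s v, (s, v) ∈ en y ∧ Ok ty s ∧ Le q s) ∨ Inc ty y q

/-- `q` decides `y` inside `N` -/
def DciN (ty : Bool) (N : Set X) (y : X) (q : Pre X) : Prop :=
  (∃ s v, (s, v) ∈ en y ∧ Cd ty N s ∧ v ∈ N ∧ Le q s) ∨ Inc ty y q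

/-- `p` is generic over `N` -/
def Gn (ty : Bool) (N : Set X) (p : Pre X) : Prop := ∀ y ∈ N, ∃ τ, Cd ty N τ ∧ Le p τ ∧ DciN ty N y τ

/-- the promises of `p` contained in `N` of maximal height -/
def AA (N : Set X) (p : Pre X) : Set (Set X) := {a | a ∈ p.S ∧ a ⊆ N ∧ dl a = dl N}

/-- closure properties of `N` -/
structure Gd (ty : Bool) (N : Set X) : Prop where
  ct : N.Countable
  tr : Tr1 N
  b : ⊥ ∈ N
  w : w1 ∈ N
  k : kk ∈ N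
  ev : ∀ ξ ∈ N, ∀ g ∈ N, ev ξ g ∈ N
  x : ∀ s, Cd ty N s → s.x ⊆ N
  F : ∀ s, Cd ty N s → ∀ α ∈ N, ∀ ξ ∈ N, s.F α ξ ∈ N
  c : ∀ s, Cd ty N s → ∀ α ∈ N, ∀ ξ ∈ N, s.c α ξ ∈ N
  S : ∀ s, Cd ty N s → ∀ a ∈ s.S, dl a ∈ N ∧ dl a < dl N ∧ lam a ∈ N
  okH : ∀ s, Cd ty N s → OkH ty (dl N) s
  ns : ∀ s, Cd ty N s → ¬ N ⊆ s.x
  dec : ∀ y ∈ N, ∀ τ, Cd ty N τ → Dci ty y τ → DciN ty N y τ
  inc : ∀ y ∈ N, ∀ τ, Cd ty N τ → ¬ Inc ty y τ → ∃ s v r, (s, v) ∈ en y ∧ Cd ty N s ∧ v ∈ N ∧ Cd ty N r ∧ Le r τ ∧ Le r s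
  bd : ∀ s, Cd ty N s → ∀ r, Cd ty N r → ∀ δ ∈ N, δ < w1 → ∃ η ∈ N, η < w1 ∧ δ < η ∧ (∀ a ∈ s.S, dl a < η) ∧
    ∀ a ∈ r.S, dl a < η
  mx : ∀ s, Cd ty N s → ∀ r, Cd ty N r → ∀ η ∈ N, cd (mx s r η) ∈ N

/-- `N[γ]` and `N` have the same countable ordinals, and the elements of `N[γ]` which are below an element of `N` below `κ`
belong to `N` -/
structure Ex (N N' : Set X) : Prop where
  sub : N ⊆ N'
  w : ∀ i, i < w1 → i ∈ N' → i ∈ N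
  dl : dl N' = dl N
  k : ∀ x ∈ N', ∀ β ∈ N, β < kk → x < β → x ∈ N

/-- `r` is a condition coded in `N[γ]` whose restriction to `N` is above `p` -/
def Sta (ty : Bool) (N : Set X) (γ : X) (p r : Pre X) : Prop := Cd ty (nx N γ) r ∧ Le p (rs r N)

/-- `γ` is a candidate for `p` -/
structure Cand (N : Set X) (γ : X) (p : Pre X) : Prop where
  ind : Ind N γ
  tr : ∀ x ∈ p.x, x ∈ nx N γ → x ∈ N
  zr : ∀ a ∈ AA N p, nx N γ ⊆ Zr a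
  lm : ∀ a ∈ AA N p, ∀ x ∈ nx N γ, x < kk → x < lam a

theorem Gn.mono {ty : Bool} {N : Set X} {p q : Pre X} (h : Gn ty N p) (hq : Le q p) : Gn ty N q := fun y hy => by
  obtain ⟨τ, h1, h2, h3⟩ := h y hy
  exact ⟨τ, h1, Le.trans' h1.1.fit hq h2, h3⟩

theorem aa_mono {N : Set X} {p q : Pre X} (hN : N ⊆ p.x) (hq : Le q p) : AA N q = AA N p := by
  ext a
  constructor
  · rintro ⟨h1, h2, h3⟩
    exact ⟨(hq.S a (h2.trans hN)).1 h1, h2, h3⟩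
  · rintro ⟨h1, h2, h3⟩
    exact ⟨(hq.S a (h2.trans hN)).2 h1, h2, h3⟩

end Pool.MP_d8f801_lc.SC
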