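import Pool.Agent.Lib.MP_d8f801_lc.SC.G.Close

/-!
# SC/G: generic conditions meet dense sets (modules G-Dense)

* `gn_dense`: for every `l` let `A l` be a small predense subset of `D l` (`exists_predense`), and `y l` with
  `en (y l) = A l ×ˢ {⊥}` (`en_surj`, `Sm.prod`, `Ok.fitE`). `N` closed under `y` (`club_fnL`). `Gn ty N p` for `y l` gives `τ` with
  `Cd ty N τ`, `Le p τ`, `DciN ty N (y l) τ`. First alternative: `(s, v) ∈ en (y l)`, `Cd ty N s`, `Le τ s`: so `D l s` and `Le p s`.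
  Second alternative: `Inc ty (y l) τ`, but `τ` is compatible with an element of `A l`, contradiction.
* `gn_pts`: `gn_dense` for `D [x, y] s := x ∈ s.x ∧ y ∈ s.x` (`ex_pt` twice) and `Gd.x`.
* `gn_F`: `s` from `gn_pts` for `α`, `ξ`: `p.F α ξ = s.F α ξ ∈ N` (`Gd.F`).
* `gn_c`: (←) `i < dl N` implies `i ∈ N` (`dl_sub`); `s` from `gn_pts` for `γ`, `i`: `β = p.c γ i = s.c γ i ∈ N` (`Gd.c`), and `β < γ` by `Fit.cv` for
  `s` if `β ≠ ⊥`, and since `γ ≠ ⊥` otherwise. (→) `gn_dense` for `D [γ, β] s := γ < kk → β < γ → ∃ i ∈ s.x, i < w1 ∧ γ ∈ s.x ∧ s.c γ i = β` (`ex_c`):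
  `i ∈ s.x ⊆ N` (`Gd.x`), so `i < dl N` (`Gd.tr`), and `p.c γ i = s.c γ i`.
* `gn_dir`: `gn_dense` for `D [x, y] s := Ok ty (dc x) → Ok ty (dc y) → (Le s (dc x) ∧ Le s (dc y)) ∨ (¬ ∃ r, Ok ty r ∧ Le r s ∧ Le r (dc x)) ∨
  ¬ ∃ r, Ok ty r ∧ Le r s ∧ Le r (dc y)` with `x = cd s1`, `y = cd s2` (`dc_cd`). Dense: given `q`, if `q` has no common extension with `dc x` take `q`; otherwise let `r` be
  one; if `r` has no common extension with `dc y` take `r`; otherwise a common extension of `r` and `dc y`. The last two alternatives are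
  impossible for `s` with `Le p s`, because `p` is a common extension.
-/

set_option autoImplicit false

universe u

namespace Pool.MP_d8f801_lc.SC

open Cardinal Set Filter

variable {X : Type u} [Stg X]

theorem gn_dense {ty : Bool} (D : List X → Pre X → Prop)
    (hD : ∀ l p, Ok ty p → ∃ q, Ok ty q ∧ Le q p ∧ D l q) : ∀ᶠ N in club X, ∀ p, Gn ty N p →
    ∀ l : List X, (∀ x ∈ l, x ∈ N) → ∃ s, Cd ty N s ∧ Le p s ∧ D l s := by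
  choose A hsm hAD hanti hpre using fun l => exists_predense (ty := ty) (D l) (hD l)
  have hy : ∀ l, ∃ y : X, en y = A l ×ˢ ({⊥} : Set X) := by
    intro l
    refine en_surj (Sm.prod (hsm l) (Sm.of_countable (countable_singleton _))) ?_
    rintro z ⟨hz, -⟩
    exact (hAD l z.1 hz).1.fitE
  choose y hy using hy
  filter_upwards [club_fnL y] with N hN p hp l hl
  obtain ⟨τ, hτ1, hτ2, hτ3⟩ := hp (y l) (hN l hl)
  rcases hτ3 with ⟨s, v, hs, hs1, -, hs3⟩ | hinc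
  · rw [hy l] at hs
    exact ⟨s, hs1, Le.trans' hs1.1.fit hτ2 hs3, (hAD l s hs.1).2⟩
  · exfalso
    obtain ⟨q, hq, r, hr1, hr2, hr3⟩ := hpre l τ hτ1.1
    refine hinc q ⊥ ?_ (hAD l q hq).1 ⟨r, hr1, hr2, hr3⟩
    rw [hy l]
    exact ⟨hq, rfl⟩

theorem gn_dense1 {ty : Bool} (D : X → Pre X → Prop)
    (hD : ∀ x p, Ok ty p → ∃ q, Ok ty q ∧ Le q p ∧ D x q) : ∀ᶠ N in club X, ∀ p, Gn ty N p →
    ∀ x ∈ N, ∃ s, Cd ty N s ∧ Le p s ∧ D x s := by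
  filter_upwards [gn_dense (fun l s => D (l.getD 0 ⊥) s) fun l p hp => hD _ p hp] with N hN p hp x hx
  exact hN p hp [x] (by simpa using hx)

theorem gn_dense2 {ty : Bool} (D : X → X → Pre X → Prop)
    (hD : ∀ x y p, Ok ty p → ∃ q, Ok ty q ∧ Le q p ∧ D x y q) : ∀ᶠ N in club X, ∀ p, Gn ty N p →
    ∀ x ∈ N, ∀ y ∈ N, ∃ s, Cd ty N s ∧ Le p s ∧ D x y s := by
  filter_upwards [gn_dense (fun l s => D (l.getD 0 ⊥) (l.getD 1 ⊥) s) fun l p hp => hD _ _ p hp] with N hN p hp x hx y hy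
  exact hN p hp [x, y] (by simp [hx, hy])

theorem gn_pts (ty : Bool) : ∀ᶠ N in club X, ∀ p : Pre X, Gn ty N p → N ⊆ p.x ∧
    ∀ x ∈ N, ∀ y ∈ N, ∃ s, Cd ty N s ∧ Le p s ∧ x ∈ s.x ∧ y ∈ s.x := by
  have hD : ∀ x y : X, ∀ p : Pre X, Ok ty p → ∃ q, Ok ty q ∧ Le q p ∧ (x ∈ q.x ∧ y ∈ q.x) := by
    intro x y p hp
    obtain ⟨q, hq1, hq2, hq3⟩ := ex_pt hp x
    obtain ⟨r, hr1, hr2, hr3⟩ := ex_pt hq1 y
    exact ⟨r, hr1, Le.trans' hp.fit hr2 hq2, hr2.x hq3, hr3⟩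
  filter_upwards [gn_dense2 (ty := ty) (fun x y s => x ∈ s.x ∧ y ∈ s.x) hD] with N hN p hp
  refine ⟨fun x hx => ?_, fun x hx y hy => hN p hp x hx y hy⟩
  obtain ⟨s, -, h2, h3, -⟩ := hN p hp x hx x hx
  exact h2.x h3

theorem gn_F (ty : Bool) : ∀ᶠ N in club X, ∀ p : Pre X, Gn ty N p → ∀ α ∈ N, ∀ ξ ∈ N, p.F α ξ ∈ N := by
  filter_upwards [gn_pts ty, gd_club ty] with N h1 h2 p hp α hα ξ hξ
  obtain ⟨s, hs1, hs2, hs3, hs4⟩ := (h1 p hp).2 α hα ξ hξ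
  rw [hs2.F α hs3 ξ hs4]
  exact h2.F s hs1 α hα ξ hξ

theorem gn_c (ty : Bool) : ∀ᶠ N in club X, ∀ p : Pre X, Gn ty N p → ∀ γ ∈ N, γ < kk → γ ≠ ⊥ →
    ∀ β, (β ∈ N ∧ β < γ) ↔ ∃ i, i < dl N ∧ p.c γ i = β := by
  have hD : ∀ γ β : X, ∀ p : Pre X, Ok ty p → ∃ q, Ok ty q ∧ Le q p ∧
      (γ < kk → β < γ → ∃ i ∈ q.x, i < w1 ∧ γ ∈ q.x ∧ q.c γ i = β) := by
    intro γ β p hp
    by_cases hγ : γ < kk
    · by_cases hβ : β < γ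
      · obtain ⟨q, hq1, hq2, hq3, -, i, hi1, hi2, hi3⟩ := ex_c hp hγ hβ
        exact ⟨q, hq1, hq2, fun _ _ => ⟨i, hi1, hi2, hq3, hi3⟩⟩
      · exact ⟨p, hp, Le.refl' hp.fit, fun _ h => absurd h hβ⟩
    · exact ⟨p, hp, Le.refl' hp.fit, fun h => absurd h hγ⟩
  filter_upwards [gn_pts ty, gd_club ty, gn_dense2 (ty := ty) (fun γ β s => γ < kk → β < γ →
    ∃ i ∈ s.x, i < w1 ∧ γ ∈ s.x ∧ s.c γ i = β) hD] with N h1 h2 h3 p hp γ hγ hγk hγ0 β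
  constructor
  · rintro ⟨hβ, hβγ⟩
    obtain ⟨s, hs1, hs2, hs3⟩ := h3 p hp γ hγ β hβ
    obtain ⟨i, hi1, hi2, hi3, hi4⟩ := hs3 hγk hβγ
    refine ⟨i, h2.tr i (h2.x s hs1 hi1) hi2, ?_⟩
    rw [hs2.c γ hi3 i hi1]
    exact hi4
  · rintro ⟨i, hi, hiβ⟩
    have hiN : i ∈ N := dl_sub hi
    obtain ⟨s, hs1, hs2, hs3, hs4⟩ := (h1 p hp).2 γ hγ i hiN
    have hc : s.c γ i = β := by rw [← hs2.c γ hs3 i hs4]; exact hiβ
    refine ⟨hc ▸ h2.c s hs1 γ hγ i hiN, ?_⟩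
    by_cases hb : β = ⊥
    · rw [hb]
      exact bot_lt_iff_ne_bot.2 hγ0
    · have h5 := (hs1.1.fit.cv γ i (by rw [hc]; exact hb)).2.2.2.2
      rw [hc] at h5
      exact h5

theorem gn_dir (ty : Bool) : ∀ᶠ N in club X, ∀ p : Pre X, Ok ty p → Gn ty N p → ∀ s1, Cd ty N s1 → ∀ s2, Cd ty N s2 →
    Le p s1 → Le p s2 → ∃ s, Cd ty N s ∧ Le p s ∧ Le s s1 ∧ Le s s2 := by
  have hD : ∀ x y : X, ∀ q : Pre X, Ok ty q → ∃ s, Ok ty s ∧ Le s q ∧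
      (Ok ty (dc x) → Ok ty (dc y) → (Le s (dc x) ∧ Le s (dc y)) ∨
        (¬ ∃ r, Ok ty r ∧ Le r s ∧ Le r (dc x)) ∨ ¬ ∃ r, Ok ty r ∧ Le r s ∧ Le r (dc y)) := by
    intro x y q hq
    by_cases hx : Ok ty (dc x)
    · by_cases h1 : ∃ r, Ok ty r ∧ Le r q ∧ Le r (dc x)
      · obtain ⟨r, hr1, hr2, hr3⟩ := h1
        by_cases h2 : ∃ r', Ok ty r' ∧ Le r' r ∧ Le r' (dc y)
        · obtain ⟨r', hr1', hr2', hr3'⟩ := h2
          exact ⟨r', hr1', Le.trans' hq.fit hr2' hr2, fun _ _ => Or.inl ⟨Le.trans' hx.fit hr2' hr3, hr3'⟩⟩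
        · exact ⟨r, hr1, hr2, fun _ _ => Or.inr (Or.inr h2)⟩
      · exact ⟨q, hq, Le.refl' hq.fit, fun _ _ => Or.inr (Or.inl h1)⟩
    · exact ⟨q, hq, Le.refl' hq.fit, fun h => absurd h hx⟩
  filter_upwards [gn_dense2 (ty := ty) (fun x y s => Ok ty (dc x) → Ok ty (dc y) →
    (Le s (dc x) ∧ Le s (dc y)) ∨ (¬ ∃ r, Ok ty r ∧ Le r s ∧ Le r (dc x)) ∨
      ¬ ∃ r, Ok ty r ∧ Le r s ∧ Le r (dc y)) hD] with N hN p hpo hp s1 hs1 s2 hs2 hp1 hp2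
  obtain ⟨s, h1, h2, h3⟩ := hN p hp (cd s1) hs1.2 (cd s2) hs2.2
  rw [dc_cd hs1.1.fitE, dc_cd hs2.1.fitE] at h3
  rcases h3 hs1.1 hs2.1 with h4 | h4 | h4
  · exact ⟨s, h1, h2, h4.1, h4.2⟩
  · exact absurd ⟨p, hpo, h2, hp1⟩ h4
  · exact absurd ⟨p, hpo, h2, hp2⟩ h4

end Pool.MP_d8f801_lc.SC
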