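import Pool.Agent.Lib.MP_d8f801_lc.SC.G.SeqG

/-!
# SC/G: the final amalgam, basic facts (module G-Fin)

`FS ty N N' p r L` collects the situation: `N' = N[γ]`, `r n` is the sequence of `exists_gseq`, `L` its limit.

* `FS.Lx'`: `L.x = ⋃ n, (r n).x = N'` by `Gd.x` for `N'` and `rx`.
* `FS.two`: for `α ξ ∈ N'` there is `n` with `α ξ ∈ (r n).x` (`rx` twice and `le_seq`).
* `FS.agree`: `α ξ ∈ p.x ∩ N' ⊆ N` (`tr`), `n` with `α ξ ∈ (r n).x`: so they belong to `(rs (r n) N).x`, and `p.F α ξ = (rs (r n) N).F α ξ = (r n).F α ξ = L.F α ξ`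
  (`rp`, definition of `rs`, `Lle`); the same for `c`.
* `FS.Sr`: `a ∈ (r n).S`, `a ⊆ p.x`: `a ⊆ (r n).x ⊆ N'`, so `a ⊆ N` by `tr`, so `a ∈ (rs (r n) N).S`, and `a ∈ p.S` by `rp` (`Le.S` for `a ⊆ (rs (r n) N).x`).
* `FS.rS`: `a ∈ p.S`, `a ⊆ (r n).x`: so `a ⊆ N` (`tr`), `a ⊆ (rs (r n) N).x`, so `a ∈ (rs (r n) N).S` by `rp`, so `a ∈ (r n).S`.
* `FS.rdl`: `Gd.S` for `N'`, `Cd ty N' (r n)`: `dl a < dl N' = dl N`.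
* `FS.rb'`: `a ∈ (r n).S`, `a ∈ p.S` (so `a ⊆ N`): `(r n).b a = (rs (r n) N).b a = p.b a ∩ (rs (r n) N).x` (`rb`, `rp`); it is contained in `N`.
  And `p.b a ∩ (r n).x = (r n).b a`: `p.b a ∩ (r n).x ⊆ p.x ∩ N' ⊆ N` (type B: `Bok.bx`; type A: `b0`), and `(rs (r n) N).x = (r n).x ∩ N`.
* `FS.rt'`: for `y ∈ (r n).b a`: `p.t a y = (rs (r n) N).t a y = (r n).t a y`.
* `FS.old`: if `a ∈ p.S`, `a ⊆ s.x`, `Cd ty N s`, `Le p s`: by `rs'` `Le (r n) s` for some `n`, `a ∈ s.S` (`Le p s`), so `a ∈ (r n).S` (`Le (r n) s`).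
* `FS.Lb'`: for `a ∈ L.S`, `a ∈ p.S`: `L.b a = ⋃ n, (r n).b a ⊆ p.b a ∩ N` (`(r n).b a = ∅` if `a ∉ (r n).S`, `b0`).
-/

set_option autoImplicit false

universe u

namespace Pool.MP_d8f801_lc.SC

open Cardinal Set Filter

variable {X : Type u} [Stg X]

/-- the final situation -/
structure FS (ty : Bool) (N N' : Set X) (p : Pre X) (r : ℕ → Pre X) (L : Pre X) : Prop where
  gd : Gd ty N
  gd' : Gd ty N'
  ex : Ex N N'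
  okp : Ok ty p
  gn : Gn ty N p
  px : N ⊆ p.x
  pF : ∀ α ∈ N, ∀ ξ ∈ N, p.F α ξ ∈ N
  tr : ∀ x ∈ p.x, x ∈ N' → x ∈ N
  zr : ∀ a ∈ AA N p, N' ⊆ Zr a
  lm : ∀ a ∈ AA N p, ∀ x ∈ N', x < kk → x < lam a
  hu : ty = true → ∀ a ∈ AA N p, N' = hul a (N' ∩ Iio kk)
  pb : ty = true → ∀ a ∈ AA N p, p.b a = N
  rok : ∀ n, Cd ty N' (r n)
  rle : ∀ n, Le (r (n + 1)) (r n)
  rp : ∀ n, Le p (rs (r n) N)
  rb : ∀ n, ∀ a ∈ (r n).S, a ⊆ N → (r n).b a = (rs (r n) N).b a ∧ (r n).b a ⊆ N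
  rx : ∀ x ∈ N', ∃ n, x ∈ (r n).x
  rd : ∀ y ∈ N', ∃ n, DciN ty N' y (r n)
  rs' : ∀ s, Cd ty N s → Le p s → ∃ n, Le (r n) s
  rk : ∀ b ∈ p.S, b ⊆ N → (¬ ∃ s, Cd ty N s ∧ Le p s ∧ b ⊆ s.x) → dl b < dl N → ∀ ξ ∈ N', ξ ∉ N →
    ∃ n, ∃ α ∈ b, dl b ≤ (r n).F α ξ
  Lok : Ok ty L
  Lle : ∀ n, Le L (r n)
  Lx : L.x = ⋃ n, (r n).x
  LS : L.S = ⋃ n, (r n).S
  Lb : ∀ a, L.b a = ⋃ n, (r n).b a
  c4 : ∀ q : Pre X, Gn ty N' q → ∀ γ ∈ N', γ < kk → γ ≠ ⊥ → ∀ β, (β ∈ N' ∧ β < γ) ↔ ∃ i, i < dl N' ∧ q.c γ i = β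

variable {ty : Bool} {N N' : Set X} {p : Pre X} {r : ℕ → Pre X} {L : Pre X}

namespace FS

private theorem fin_bx {ty : Bool} {p : Pre X} (hp : Fit ty p) (a : Set X) : p.b a ⊆ p.x := by
  by_cases ha : a ∈ p.S
  · cases ty with
    | false => rw [hp.b0 a (Or.inl rfl)]; exact empty_subset _
    | true => exact (hp.B1 rfl a ha).2
  · rw [hp.b0 a (Or.inr ha)]; exact empty_subset _

private theorem fin_F (h : FS ty N N' p r L) (n : ℕ) : (r n).x ⊆ N' := h.gd'.x _ (h.rok n)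

theorem Lx' (h : FS ty N N' p r L) : L.x = N' := by
  rw [h.Lx]
  refine Subset.antisymm (iUnion_subset fun n => fin_F h n) fun x hx => ?_
  exact mem_iUnion.2 (h.rx x hx)

theorem two (h : FS ty N N' p r L) {α ξ : X} (hα : α ∈ N') (hξ : ξ ∈ N') : ∃ n, α ∈ (r n).x ∧ ξ ∈ (r n).x := by
  obtain ⟨m, hm⟩ := h.rx α hα
  obtain ⟨n, hn⟩ := h.rx ξ hξ
  exact ⟨max m n, (le_seq (fun k => (h.rok k).1) h.rle (le_max_left m n)).x hm,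
    (le_seq (fun k => (h.rok k).1) h.rle (le_max_right m n)).x hn⟩

theorem agree (h : FS ty N N' p r L) {α ξ : X} (hα : α ∈ p.x) (hα' : α ∈ N') (hξ : ξ ∈ p.x) (hξ' : ξ ∈ N') :
    p.F α ξ = L.F α ξ ∧ p.c α ξ = L.c α ξ := by
  have h1 := h.tr α hα hα'
  have h2 := h.tr ξ hξ hξ'
  obtain ⟨n, h3, h4⟩ := h.two hα' hξ'
  have h5 := (h.rp n).F α ⟨h3, h1⟩ ξ ⟨h4, h2⟩
  have h6 := (h.rp n).c α ⟨h3, h1⟩ ξ ⟨h4, h2⟩
  have h7 : (rs (r n) N).F α ξ = (r n).F α ξ := if_pos ⟨h1, h2⟩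
  have h8 : (rs (r n) N).c α ξ = (r n).c α ξ := if_pos ⟨h1, h2⟩
  rw [h5, h6, h7, h8, (h.Lle n).F α h3 ξ h4, (h.Lle n).c α h3 ξ h4]
  exact ⟨rfl, rfl⟩

theorem Sr (h : FS ty N N' p r L) {n : ℕ} {a : Set X} (ha : a ∈ (r n).S) (hap : a ⊆ p.x) : a ⊆ N ∧ a ∈ p.S := by
  have h1 : a ⊆ (r n).x := (h.rok n).1.fit.Sx a ha
  have h2 : a ⊆ N := fun x hx => h.tr x (hap hx) (fin_F h n (h1 hx))
  exact ⟨h2, ((h.rp n).S a (subset_inter h1 h2)).2 ⟨ha, h2⟩⟩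

theorem rS (h : FS ty N N' p r L) {n : ℕ} {a : Set X} (ha : a ∈ p.S) (har : a ⊆ (r n).x) : a ⊆ N ∧ a ∈ (r n).S := by
  have h1 : a ⊆ p.x := h.okp.fit.Sx a ha
  have h2 : a ⊆ N := fun x hx => h.tr x (h1 hx) (fin_F h n (har hx))
  exact ⟨h2, (((h.rp n).S a (subset_inter har h2)).1 ha).1⟩

theorem rdl (h : FS ty N N' p r L) {n : ℕ} {a : Set X} (ha : a ∈ (r n).S) : dl a < dl N ∧ a ∉ AA N p := by
  have h1 := (h.gd'.S _ (h.rok n) a ha).2.1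
  rw [h.ex.dl] at h1
  exact ⟨h1, fun h2 => absurd h2.2.2 h1.ne⟩

theorem rb' (h : FS ty N N' p r L) {n : ℕ} {a : Set X} (ha : a ∈ (r n).S) (ha' : a ∈ p.S) :
    (r n).b a = p.b a ∩ (rs (r n) N).x ∧ (r n).b a ⊆ N ∧ p.b a ∩ (r n).x = (r n).b a ∧ (r n).b a ⊆ p.b a := by
  have haN : a ⊆ N := (h.Sr ha (h.okp.fit.Sx a ha')).1
  obtain ⟨h1, h2⟩ := h.rb n a ha haN
  have h3 := (h.rp n).b a ⟨ha, haN⟩
  have h4 : (r n).b a = p.b a ∩ (rs (r n) N).x := by rw [h3, h1]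
  refine ⟨h4, h2, ?_, ?_⟩
  · rw [h4]
    refine Subset.antisymm (fun x hx => ⟨hx.1, hx.2, ?_⟩) fun x hx => ⟨hx.1, hx.2.1⟩
    exact h.tr x (fin_bx h.okp.fit a hx.1) (fin_F h n hx.2)
  · rw [h4]
    exact inter_subset_left

theorem rt' (h : FS ty N N' p r L) {n : ℕ} {a : Set X} (ha : a ∈ (r n).S) (ha' : a ∈ p.S) {y : X}
    (hy : y ∈ (r n).b a) : p.t a y = (r n).t a y := by
  have haN : a ⊆ N := (h.Sr ha (h.okp.fit.Sx a ha')).1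
  have h1 := (h.rb n a ha haN).1
  have h2 := (h.rp n).t a ⟨ha, haN⟩ y (h1 ▸ hy)
  rw [h2]
  exact if_pos ⟨ha, haN⟩

theorem old (h : FS ty N N' p r L) {a : Set X} (ha : a ∈ p.S) {s : Pre X} (hs : Cd ty N s) (hp : Le p s)
    (has : a ⊆ s.x) : ∃ n, a ∈ (r n).S := by
  obtain ⟨n, hn⟩ := h.rs' s hs hp
  exact ⟨n, (hn.S a has).2 ((hp.S a has).1 ha)⟩

theorem Lb' (h : FS ty N N' p r L) {a : Set X} (ha : a ∈ L.S) (ha' : a ∈ p.S) : L.b a ⊆ p.b a ∧ L.b a ⊆ N := by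
  rw [h.Lb]
  have key : ∀ n, (r n).b a ⊆ p.b a ∧ (r n).b a ⊆ N := by
    intro n
    by_cases h1 : a ∈ (r n).S
    · exact ⟨(h.rb' h1 ha').2.2.2, (h.rb' h1 ha').2.1⟩
    · rw [(h.rok n).1.fit.b0 a (Or.inr h1)]
      exact ⟨empty_subset _, empty_subset _⟩
  exact ⟨iUnion_subset fun n => (key n).1, iUnion_subset fun n => (key n).2⟩

end FS

end Pool.MP_d8f801_lc.SC
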