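import Pool.Agent.Lib.MP_d8f801_lc.SC.G.FinLe

/-!
# SC/G: the promises of the final amalgam (type B) (module G-FinBok)

Let `q = fq true N N' p L T η`.

* `bok_aa`: `a ∈ AA N p` (so `a ⊆ N ⊆ N'`, `dl a = dl N = dl N'`), `q.b a = N'`. `b1`, `bx`: clear. `b2`: `hu`. `b2'`: `lm`. `b3`: `i ∈ N'`, `i < w1` implies `i < dl N'` (`Gd.tr` for `N'`).
  `b4`: `c4` for `q` (`fq_gn`). `b5`: let `y ∈ N'`. If `y ∉ N`: `q.t a y = T y = cd τ` with `Cd true N' τ`, `Le q τ`, `DciN true N' y τ` (`hT`). `OkH true (dl a) τ` by `Gd.okH` (`dl a = dl N'`),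
  `τ.x ⊆ N'` by `Gd.x`; `DciN` gives one of the two alternatives (`Gd.okH` for `s`; `okH_iff_ok` to get `Ok` from `OkH`). If `y ∈ N`: `q.t a y = p.t a y`; by `Bok` for `p`, `a` (`p.b a = N`) there is `τ` with
  `p.t a y = cd τ ∈ N`, `OkH true (dl a) τ`, `τ.x ⊆ N`, `Le p τ` (so `Le q τ` by `fq_le_p`), and one of the alternatives for `N`. The first one is preserved. In the second case
  `Inc true y τ` holds (otherwise `Gd.inc` for `N` gives `s v r` coded in `N`, with `OkH true (dl N)` by `Gd.okH`: contradiction), so the second alternative holds for `N'`.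
* `bok_p`: `a ∈ p.S`, `a ∉ AA N p`: `Bok.mono` (`fq_le_p`, `fq_b`).
* `bok_L`: `a ∈ L.S`, `a ∉ p.S`: `Bok.congr` for `L`, `q`: `hb`: `fq_b'`; `hx`: `L.b a ⊆ L.x = N' ⊆ q.x`; `hc`: `γ ∈ L.b a ⊆ N'`, `i ∈ a ⊆ L.x = N'`: if both belong to `p.x` then `q.c γ i = p.c γ i = L.c γ i` (`agree`),
  otherwise `L.c γ i`; `ht`: `fq_t'`; `hle`: `y ∈ L.b a = ⋃ n, (r n).b a`, so `y ∈ (r n).b a` and `a ∈ (r n).S` for some `n`; by `Bok` for `r n` there is `τ'` with `(r n).t a y = cd τ'`, `Le (r n) τ'`; `L.t a y = (r n).t a y`, so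
  `τ = τ'` (`cd_inj`, `okH_iff_ok`) and `Le q τ` by `fq_le_r` and `Le.trans'`.
-/

set_option autoImplicit false

universe u

namespace Pool.MP_d8f801_lc.SC

open Cardinal Set Filter

variable {X : Type u} [Stg X] {N N' : Set X} {p : Pre X} {r : ℕ → Pre X} {L : Pre X} {T : X → X} {η : X}

namespace FS

open Classical in
private theorem fq_t_aa {a : Set X} (ha : a ∈ AA N p) {y : X} (hy : y ∈ N') :
    (fq true N N' p L T η).t a y = if y ∈ N then p.t a y else T y := by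
  unfold fq mix
  simp only
  simp only [true_and, if_pos ha]
  rw [if_pos (show a ∈ p.S ∪ L.S ∧ y ∈ N' from ⟨Or.inl ha.1, hy⟩)]

theorem bok_aa (h : FS true N N' p r L)
    (hT : ∀ y ∈ N', ∃ τ, T y = cd τ ∧ Cd true N' τ ∧ Le (fq true N N' p L T η) τ ∧ DciN true N' y τ)
    {a : Set X} (ha : a ∈ AA N p) : Bok (fq true N N' p L T η) a := by
  have hS : a ∈ p.S ∪ L.S := Or.inl ha.1
  have hb : (fq true N N' p L T η).b a = N' := by
    unfold fq mix
    simp only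
    rw [if_pos hS, if_pos ⟨rfl, ha⟩]
  have hdl : dl N' = dl a := h.ex.dl.trans ha.2.2.symm
  have hdl' : dl N = dl a := ha.2.2.symm
  refine ⟨?_, ?_, ?_, ?_, ?_, ?_, ?_⟩
  · rw [hb]
    exact ha.2.1.trans h.ex.sub
  · rw [hb]
    show N' ⊆ p.x ∪ L.x
    rw [h.Lx']
    exact subset_union_right
  · rw [hb]
    exact h.hu rfl a ha
  · rw [hb]
    exact h.lm a ha
  · rw [hb]
    intro i hi hw
    rw [← hdl]
    exact h.gd'.tr i hi hw
  · rw [hb]
    intro γ hγ hk h0 β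
    rw [← hdl]
    exact h.c4 _ h.fq_gn γ hγ hk h0 β
  · rw [hb]
    intro y hy
    unfold Bdec
    rw [hb, fq_t_aa ha hy]
    by_cases hyN : y ∈ N
    · rw [if_pos hyN]
      have hbok : Bok p a := h.okp.bok ha.1
      have hpb : p.b a = N := h.pb rfl a ha
      obtain ⟨τ, h1, h2, h3, h4, h5, h6⟩ := hbok.b5 y (hpb.symm ▸ hyN)
      rw [hpb] at h2 h4 h6
      have hok : Ok true τ := (okH_iff_ok.1 h3).1
      refine ⟨τ, h1, h.ex.sub h2, h3, h4.trans h.ex.sub, Le.trans' hok.fit h.fq_le_p h5, ?_⟩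
      rcases h6 with ⟨s, v, h7, h8, h9, h10, h11⟩ | h6
      · exact Or.inl ⟨s, v, h7, h.ex.sub h8, h.ex.sub h9, h10, h11⟩
      · right
        have hinc : Inc true y τ := by
          by_contra hc
          obtain ⟨s, v, r', h7, h8, h9, h10, h11, h12⟩ := h.gd.inc y hyN τ ⟨hok, h2⟩ hc
          have h13 : OkH true (dl a) s := hdl' ▸ h.gd.okH s h8
          have h14 : OkH true (dl a) r' := hdl' ▸ h.gd.okH r' h10
          exact h6 s v h7 h8.2 h13 ⟨r', h10.2, h14, h11, h12⟩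
        rintro s v h7 h8 h9 ⟨r', h10, h11, h12, h13⟩
        exact hinc s v h7 (okH_iff_ok.1 h9).1 ⟨r', (okH_iff_ok.1 h11).1, h12, h13⟩
    · rw [if_neg hyN]
      obtain ⟨τ, h1, h2, h3, h4⟩ := hT y hy
      refine ⟨τ, h1, h2.2, hdl ▸ h.gd'.okH τ h2, h.gd'.x τ h2, h3, ?_⟩
      rcases h4 with ⟨s, v, h7, h8, h9, h10⟩ | h4
      · exact Or.inl ⟨s, v, h7, h8.2, h9, hdl ▸ h.gd'.okH s h8, h10⟩
      · right
        rintro s v h7 h8 h9 ⟨r', h10, h11, h12, h13⟩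
        exact h4 s v h7 (okH_iff_ok.1 h9).1 ⟨r', (okH_iff_ok.1 h11).1, h12, h13⟩

theorem bok_p (h : FS true N N' p r L) {a : Set X} (ha : a ∈ p.S) (hA : a ∉ AA N p) :
    Bok (fq true N N' p L T η) a :=
  (h.okp.bok ha).mono ha h.fq_le_p (h.fq_b ha hA)

theorem bok_L (h : FS true N N' p r L) {a : Set X} (ha : a ∈ L.S) (ha' : a ∉ p.S) :
    Bok (fq true N N' p L T η) a := by
  have hbok : Bok L a := h.Lok.bok ha
  refine hbok.congr (h.fq_b' ha ha') (hbok.bx.trans ?_) ?_ (fun y hy => h.fq_t' ha ha' hy) ?_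
  · exact fun z hz => Or.inr hz
  · intro γ hγ i hi
    have hγL : γ ∈ L.x := hbok.bx hγ
    have hiL : i ∈ L.x := h.Lok.fit.Sx a ha hi
    unfold fq mix
    simp only
    by_cases hp : γ ∈ p.x ∧ i ∈ p.x
    · rw [if_pos hp]
      exact (h.agree hp.1 (h.Lx' ▸ hγL) hp.2 (h.Lx' ▸ hiL)).2
    · rw [if_neg hp, if_pos ⟨hγL, hiL⟩]
  · intro y hy τ h1 h2 _
    rw [h.Lb a] at hy
    obtain ⟨n, hn⟩ := mem_iUnion.1 hy
    have han : a ∈ (r n).S := by
      by_contra hc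
      rw [(h.rok n).1.fit.b0 a (Or.inr hc)] at hn
      exact hn
    obtain ⟨τ', h3, _, h5, _, h7, _⟩ := ((h.rok n).1.bok han).b5 y hn
    have h8 : cd τ = cd τ' := by
      rw [← h1, (h.Lle n).t a han y hn, h3]
    have h9 : τ = τ' := cd_inj (okH_iff_ok.1 h2).1.fitE (okH_iff_ok.1 h5).1.fitE h8
    rw [h9]
    exact Le.trans' (okH_iff_ok.1 h5).1.fit (h.fq_le_r n) h7

end FS

end Pool.MP_d8f801_lc.SC
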