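import Pool.Agent.Lib.MP_d8f801_lc.SC.G.Fin

/-!
# SC/G: the final amalgam is below `p` and all `r n` (module G-FinLe)

`q = fq ty N N' p L T η`, `q.x = p.x ∪ N'`. For `a ∈ AA N p` (type B) `q.b a = N'`, `q.t a` is `p.t a` on `N` and `T` on `N' \ N`. For other `a`:
`q.b a = p.b a ∪ L.b a` (one of them is empty if `a` is only in `p.S` or only in `L.S`, `b0`; if `a ∈ p.S ∩ L.S` then `L.b a ⊆ p.b a`, `Lb'`).

* `fq_b`: `a ∈ p.S`, `a ∉ AA`: `q.b a = p.b a` (if `a ∈ L.S` by `Lb'`, otherwise `L.b a = ∅`). `fq_b'`: `a ∈ L.S`, `a ∉ p.S`: `q.b a = L.b a`. `fq_t`, `fq_t'`: the same for `t`.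
* `fq_le_p`: `F`, `c`: the first case of `mix`. `S`: for `a ⊆ p.x`, `a ∈ L.S` implies `a ∈ p.S` (`Sr`, `LS`). `b`: for `a ∈ AA` (type B) `N' ∩ p.x = N = p.b a` (`tr`, `px`, `ex.sub`, `pb`);
  otherwise `fq_b` and `p.b a ⊆ p.x`. For type A everything is empty (`b0`). `t`: `fq_t`; for `a ∈ AA`, `y ∈ p.b a = N`: definition.
* `fq_le_r`: let `α ξ ∈ (r n).x ⊆ N'`. If both belong to `p.x` the value is `p.F α ξ = L.F α ξ` (`agree`), otherwise `L.F α ξ`; and `L.F α ξ = (r n).F α ξ`. `S`: `rS`, `Lle`.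
  `b` for `a ∈ (r n).S`: `a ∉ AA` (`rdl`). If `a ∈ p.S`: `q.b a ∩ (r n).x = p.b a ∩ (r n).x = (r n).b a` (`fq_b`, `rb'`). If `a ∉ p.S`: `q.b a = L.b a` (`fq_b'`) and
  `Lle`. `t`: if `a ∈ p.S` by `fq_t` and `rt'`, otherwise by `fq_t'` and `Lle`.
-/

set_option autoImplicit false

universe u

namespace Pool.MP_d8f801_lc.SC

open Cardinal Set Filter

variable {X : Type u} [Stg X]

open Classical in
/-- the final amalgam -/
noncomputable def fq (ty : Bool) (N N' : Set X) (p L : Pre X) (T : X → X) (η : X) : Pre X :=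
  mix p L η (fun a => if ty = true ∧ a ∈ AA N p then N' else p.b a ∪ L.b a)
    (fun a y => if ty = true ∧ a ∈ AA N p then (if y ∈ N then p.t a y else T y) else
      if y ∈ p.b a then p.t a y else L.t a y)

variable {ty : Bool} {N N' : Set X} {p : Pre X} {r : ℕ → Pre X} {L : Pre X} {T : X → X} {η : X}

namespace FS

theorem fq_b (h : FS ty N N' p r L) {a : Set X} (ha : a ∈ p.S) (hA : a ∉ AA N p) :
    (fq ty N N' p L T η).b a = p.b a := by
  have hL : L.b a ⊆ p.b a := by
    by_cases haL : a ∈ L.S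
    · exact (h.Lb' haL ha).1
    · rw [h.Lok.fit.b0 a (Or.inr haL)]
      exact empty_subset _
  classical
  have e : (fq ty N N' p L T η).b a = if a ∈ p.S ∪ L.S then
      (if ty = true ∧ a ∈ AA N p then N' else p.b a ∪ L.b a) else ∅ := rfl
  rw [e, if_pos (mem_union_left _ ha), if_neg (fun h' => hA h'.2)]
  exact union_eq_left.2 hL

theorem fq_b' (h : FS ty N N' p r L) {a : Set X} (ha : a ∈ L.S) (ha' : a ∉ p.S) :
    (fq ty N N' p L T η).b a = L.b a := by
  classical
  have e : (fq ty N N' p L T η).b a = if a ∈ p.S ∪ L.S then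
      (if ty = true ∧ a ∈ AA N p then N' else p.b a ∪ L.b a) else ∅ := rfl
  rw [e, if_pos (mem_union_right _ ha), if_neg (fun h' => ha' h'.2.1), h.okp.fit.b0 a (Or.inr ha'), empty_union]

theorem fq_t (h : FS ty N N' p r L) {a : Set X} (ha : a ∈ p.S) (hA : a ∉ AA N p) {y : X} (hy : y ∈ p.b a) :
    (fq ty N N' p L T η).t a y = p.t a y := by
  classical
  have e : (fq ty N N' p L T η).t a y = if a ∈ p.S ∪ L.S ∧
      y ∈ (if ty = true ∧ a ∈ AA N p then N' else p.b a ∪ L.b a) then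
      (if ty = true ∧ a ∈ AA N p then (if y ∈ N then p.t a y else T y) else
        if y ∈ p.b a then p.t a y else L.t a y) else ⊥ := rfl
  have hn : ¬ (ty = true ∧ a ∈ AA N p) := fun h' => hA h'.2
  rw [e, if_neg hn, if_neg hn, if_pos ⟨Or.inl ha, Or.inl hy⟩, if_pos hy]

theorem fq_t' (h : FS ty N N' p r L) {a : Set X} (ha : a ∈ L.S) (ha' : a ∉ p.S) {y : X} (hy : y ∈ L.b a) :
    (fq ty N N' p L T η).t a y = L.t a y := by
  classical
  have e : (fq ty N N' p L T η).t a y = if a ∈ p.S ∪ L.S ∧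
      y ∈ (if ty = true ∧ a ∈ AA N p then N' else p.b a ∪ L.b a) then
      (if ty = true ∧ a ∈ AA N p then (if y ∈ N then p.t a y else T y) else
        if y ∈ p.b a then p.t a y else L.t a y) else ⊥ := rfl
  have hn : ¬ (ty = true ∧ a ∈ AA N p) := fun h' => ha' h'.2.1
  have hy' : y ∉ p.b a := by
    rw [h.okp.fit.b0 a (Or.inr ha')]
    exact notMem_empty y
  rw [e, if_neg hn, if_neg hn, if_pos ⟨Or.inr ha, Or.inr hy⟩, if_neg hy']

private theorem finLe_AA_b (_h : FS ty N N' p r L) (ht : ty = true) {a : Set X} (ha : a ∈ AA N p) :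
    (fq ty N N' p L T η).b a = N' := by
  classical
  have e : (fq ty N N' p L T η).b a = if a ∈ p.S ∪ L.S then
      (if ty = true ∧ a ∈ AA N p then N' else p.b a ∪ L.b a) else ∅ := rfl
  rw [e, if_pos (mem_union_left _ ha.1), if_pos ⟨ht, ha⟩]

private theorem finLe_AA_t (h : FS ty N N' p r L) (ht : ty = true) {a : Set X} (ha : a ∈ AA N p) {y : X}
    (hy : y ∈ N) : (fq ty N N' p L T η).t a y = p.t a y := by
  classical
  have e : (fq ty N N' p L T η).t a y = if a ∈ p.S ∪ L.S ∧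
      y ∈ (if ty = true ∧ a ∈ AA N p then N' else p.b a ∪ L.b a) then
      (if ty = true ∧ a ∈ AA N p then (if y ∈ N then p.t a y else T y) else
        if y ∈ p.b a then p.t a y else L.t a y) else ⊥ := rfl
  have hn : ty = true ∧ a ∈ AA N p := ⟨ht, ha⟩
  rw [e, if_pos hn, if_pos hn, if_pos ⟨Or.inl ha.1, h.ex.sub hy⟩, if_pos hy]

theorem fq_le_p (h : FS ty N N' p r L) : Le (fq ty N N' p L T η) p := by
  have hbx : ∀ a ∈ p.S, p.b a ⊆ p.x := by
    intro a ha
    by_cases ht : ty = true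
    · exact (h.okp.fit.B1 ht a ha).2
    · have ht' : ty = false := by simpa using ht
      rw [h.okp.fit.b0 a (Or.inl ht')]
      exact empty_subset _
  refine ⟨subset_union_left, fun α hα ξ hξ => if_pos ⟨hα, hξ⟩, fun α hα ξ hξ => if_pos ⟨hα, hξ⟩, ?_, ?_, ?_⟩
  · intro a hap
    constructor
    · rintro (h1 | h1)
      · exact h1
      · rw [h.LS] at h1
        obtain ⟨n, hn⟩ := mem_iUnion.1 h1
        exact (h.Sr hn hap).2
    · exact fun h1 => Or.inl h1
  · intro a ha
    by_cases hA : a ∈ AA N p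
    · by_cases ht : ty = true
      · rw [finLe_AA_b h ht hA, h.pb ht a hA]
        ext x
        constructor
        · rintro ⟨h1, h2⟩
          exact h.tr x h2 h1
        · intro hx
          exact ⟨h.ex.sub hx, h.px hx⟩
      · have ht' : ty = false := by simpa using ht
        classical
        have e : (fq ty N N' p L T η).b a = if a ∈ p.S ∪ L.S then
            (if ty = true ∧ a ∈ AA N p then N' else p.b a ∪ L.b a) else ∅ := rfl
        rw [e, if_pos (mem_union_left _ ha), if_neg (fun h' => ht h'.1), h.okp.fit.b0 a (Or.inl ht'),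
          h.Lok.fit.b0 a (Or.inl ht'), empty_union, empty_inter]
    · rw [h.fq_b ha hA]
      exact inter_eq_left.2 (hbx a ha)
  · intro a ha y hy
    by_cases hA : a ∈ AA N p
    · by_cases ht : ty = true
      · rw [h.pb ht a hA] at hy
        exact finLe_AA_t h ht hA hy
      · have ht' : ty = false := by simpa using ht
        rw [h.okp.fit.b0 a (Or.inl ht')] at hy
        exact absurd hy (notMem_empty y)
    · exact h.fq_t ha hA hy

theorem fq_le_r (h : FS ty N N' p r L) (n : ℕ) : Le (fq ty N N' p L T η) (r n) := by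
  have hl := h.Lle n
  have hsub : (r n).x ⊆ N' := h.Lx' ▸ hl.x
  refine ⟨hl.x.trans subset_union_right, fun α hα ξ hξ => ?_, fun α hα ξ hξ => ?_, fun a har => ?_,
    fun a ha => ?_, fun a ha y hy => ?_⟩
  · by_cases hp : α ∈ p.x ∧ ξ ∈ p.x
    · have e : (fq ty N N' p L T η).F α ξ = p.F α ξ := if_pos hp
      rw [e, (h.agree hp.1 (hsub hα) hp.2 (hsub hξ)).1, hl.F α hα ξ hξ]
    · have e : (fq ty N N' p L T η).F α ξ = L.F α ξ := by
        refine (if_neg hp).trans (if_pos ⟨hl.x hα, hl.x hξ⟩)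
      rw [e, hl.F α hα ξ hξ]
  · by_cases hp : α ∈ p.x ∧ ξ ∈ p.x
    · have e : (fq ty N N' p L T η).c α ξ = p.c α ξ := if_pos hp
      rw [e, (h.agree hp.1 (hsub hα) hp.2 (hsub hξ)).2, hl.c α hα ξ hξ]
    · have e : (fq ty N N' p L T η).c α ξ = L.c α ξ := by
        refine (if_neg hp).trans (if_pos ⟨hl.x hα, hl.x hξ⟩)
      rw [e, hl.c α hα ξ hξ]
  · constructor
    · rintro (h1 | h1)
      · exact (h.rS h1 har).2
      · exact (hl.S a har).1 h1
    · exact fun h1 => Or.inr ((hl.S a har).2 h1)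
  · have hA := (h.rdl ha).2
    by_cases hap : a ∈ p.S
    · rw [h.fq_b hap hA]
      exact (h.rb' ha hap).2.2.1
    · have haL : a ∈ L.S := (hl.S a ((h.rok n).1.fit.Sx a ha)).2 ha
      rw [h.fq_b' haL hap]
      exact hl.b a ha
  · have hA := (h.rdl ha).2
    by_cases hap : a ∈ p.S
    · rw [h.fq_t hap hA ((h.rb' ha hap).2.2.2 hy)]
      exact h.rt' ha hap hy
    · have haL : a ∈ L.S := (hl.S a ((h.rok n).1.fit.Sx a ha)).2 ha
      have hyL : y ∈ L.b a := by
        rw [← hl.b a ha] at hy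
        exact hy.1
      rw [h.fq_t' haL hap hyL]
      exact hl.t a ha y hy

/-- the final amalgam is generic over `N'` (proved) -/
theorem fq_gn (h : FS ty N N' p r L) : Gn ty N' (fq ty N N' p L T η) := fun y hy => by
  obtain ⟨n, hn⟩ := h.rd y hy
  exact ⟨r n, h.rok n, h.fq_le_r n, hn⟩

end FS

end Pool.MP_d8f801_lc.SC
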