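import Pool.Agent.Lib.MP_d8f801_lc.SC.G.FinBok

/-!
# SC/G: the final amalgam is a condition (module G-FinOk)

* `ok_fq`: `ok_mix` for `p`, `L` (`Ok.bas`). `hF`: `agree` (`L.x = N'`). `hA`: for type A `b a = p.b a ∪ L.b a = ∅` (`b0`). `hbp`: for `a ∈ AA` (type B): `p.b a = N ⊆ N'`; otherwise clear. `hbq`:
  `a ∈ L.S` is not in `AA` (`rdl`, `LS`). `hKp`: let `a ∈ p.S`, `a ⊆ L.x = N'`, so `a ⊆ N` (`tr`; `a ⊆ p.x`), `ξ ∈ N'`, `ξ ∉ p.x` (so `ξ ∉ N` by `px`). `dl a ≤ dl N` (`Iio (dl a) ⊆ a ⊆ N` and `dl N ∉ N`, so `dl N < dl a` is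
  impossible; `dl_sub`, `Gd.ct`, `dl_spec`). If `dl a = dl N` then `a ∈ AA` and `ξ ∈ Zr a` by `zr` (type A), or `ξ ∈ N' = b a` (type B), contradiction. Let `dl a < dl N`. If there is no `s` with `Cd ty N s`, `Le p s`, `a ⊆ s.x` then `rk`
  gives `n`, `α ∈ a` with `dl a ≤ (r n).F α ξ`; if `(r n).F α ξ ≠ ⊥` then `α ξ ∈ (r n).x` and `L.F α ξ = (r n).F α ξ`; if it is `⊥` then `dl a = ⊥ ≤ L.F α ξ`. If there is such an `s` then by `old` `a ∈ (r n).S` for some `n`, so `a ∈ L.S`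
  and the requirement `K` for `L` applies: `ξ ∉ L.reg ty a`: type A: it is `Zr a`; type B: `L.b a ⊆ N` (`Lb'`).
  `hKq`: let `a ∈ L.S`, `a ⊆ p.x`: `a ∈ p.S` (`Sr`, `LS`), `a ∉ AA`, and the requirement `K` for `p` applies (`p.b a ⊆ b a`). `hB`: `bok_aa`, `bok_p`, `bok_L`.
* `exists_fq`: choose `T y = cd (r n)` for `n` with `DciN ty N' y (r n)`, `η` from `bd_hgt` for `p.S ∪ L.S`.
-/

set_option autoImplicit false

universe u

namespace Pool.MP_d8f801_lc.SC

open Cardinal Set Filter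

variable {X : Type u} [Stg X] {ty : Bool} {N N' : Set X} {p : Pre X} {r : ℕ → Pre X} {L : Pre X} {T : X → X} {η : X}

namespace FS

private theorem mem_LS (h : FS ty N N' p r L) {a : Set X} (ha : a ∈ L.S) : ∃ n, a ∈ (r n).S := by
  rw [h.LS] at ha
  exact mem_iUnion.1 ha

private theorem not_AA_of_LS (h : FS ty N N' p r L) {a : Set X} (ha : a ∈ L.S) : a ∉ AA N p := by
  obtain ⟨n, hn⟩ := mem_LS h ha
  exact (h.rdl hn).2

private theorem hKp_aux (h : FS ty N N' p r L) {a : Set X} (ha : a ∈ p.S) (haL : a ⊆ L.x) {ξ : X}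
    (hξ : ξ ∈ L.x) (hξp : ξ ∉ p.x) (h1 : ty = false → ξ ∉ Zr a)
    (h2 : ty = true → a ∈ AA N p → ξ ∉ N') (h3 : ty = true → a ∉ AA N p → ξ ∉ L.b a) :
    ∃ α ∈ a, dl a ≤ L.F α ξ := by
  have hLx := h.Lx'
  rw [hLx] at haL hξ
  have hap : a ⊆ p.x := h.okp.fit.Sx a ha
  have haN : a ⊆ N := fun x hx => h.tr x (hap hx) (haL hx)
  have hξN : ξ ∉ N := fun hh => hξp (h.px hh)
  have hle : dl a ≤ dl N := by
    by_contra hcon
    exact (dl_spec h.gd.ct).1 (haN (dl_sub (not_le.1 hcon)))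
  rcases eq_or_lt_of_le hle with heq | hlt
  · exfalso
    have haA : a ∈ AA N p := ⟨ha, haN, heq⟩
    cases ty with
    | false => exact h1 rfl (h.zr a haA hξ)
    | true => exact h2 rfl haA hξ
  · by_cases hs : ∃ s, Cd ty N s ∧ Le p s ∧ a ⊆ s.x
    · obtain ⟨s, hs1, hs2, hs3⟩ := hs
      obtain ⟨n, hn⟩ := h.old ha hs1 hs2 hs3
      have haLS : a ∈ L.S := by rw [h.LS]; exact mem_iUnion.2 ⟨n, hn⟩
      refine h.Lok.fit.K a haLS ξ (hLx ▸ hξ) ?_
      cases ty with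
      | false => exact h1 rfl
      | true =>
        intro hh
        exact hξN ((h.Lb' haLS ha).2 hh)
    · obtain ⟨n, α, hα, hle'⟩ := h.rk a ha haN hs hlt ξ hξ hξN
      refine ⟨α, hα, ?_⟩
      by_cases hb : (r n).F α ξ = ⊥
      · rw [hb] at hle'
        exact hle'.trans bot_le
      · obtain ⟨m1, m2⟩ := (h.rok n).1.fit.F0 α ξ hb
        rw [(h.Lle n).F α m1 ξ m2]
        exact hle'

theorem ok_fq (h : FS ty N N' p r L)
    (hT : ∀ y ∈ N', ∃ τ, T y = cd τ ∧ Cd ty N' τ ∧ Le (fq ty N N' p L T η) τ ∧ DciN ty N' y τ)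
    (hη : η < w1) (hηp : ∀ a ∈ p.S, dl a ≤ η) (hηq : ∀ a ∈ L.S, dl a ≤ η) : Ok ty (fq ty N N' p L T η) := by
  have hLx := h.Lx'
  refine ok_mix h.okp.bas h.Lok.bas hη hηp hηq ?_ ?_ ?_ ?_ ?_ ?_ ?_
  · intro α hα hα' ξ hξ hξ'
    exact (h.agree hα (hLx ▸ hα') hξ (hLx ▸ hξ')).1
  · intro hty a
    subst hty
    simp [h.okp.fit.b0 a (Or.inl rfl), h.Lok.fit.b0 a (Or.inl rfl)]
  · intro a ha
    by_cases hc : ty = true ∧ a ∈ AA N p
    · simp only [hc, and_self, if_true]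
      rw [h.pb hc.1 a hc.2]
      exact h.ex.sub
    · simp only [hc, if_false]
      exact subset_union_left
  · intro a ha
    have hc : ¬ (ty = true ∧ a ∈ AA N p) := fun hc => not_AA_of_LS h ha hc.2
    simp only [hc, if_false]
    exact subset_union_right
  · intro a ha haL ξ hξ hξp h1 h2
    refine hKp_aux h ha haL hξ hξp h1 ?_ ?_
    · intro hty hA
      have := h2 hty
      simpa only [hty, hA, and_self, if_true] using this
    · intro hty hA hh
      have := h2 hty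
      simp only [hty, hA, and_false, if_false] at this
      exact this (Or.inr hh)
  · intro a ha hap ξ hξ hξL h1 h2
    obtain ⟨n, hn⟩ := mem_LS h ha
    obtain ⟨haN, hapS⟩ := h.Sr hn hap
    have hA := not_AA_of_LS h ha
    refine h.okp.fit.K a hapS ξ hξ ?_
    cases ty with
    | false => exact h1 rfl
    | true =>
      intro hh
      have := h2 rfl
      simp only [hA, and_false, if_false] at this
      exact this (Or.inl hh)
  · intro hty a ha
    subst hty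
    by_cases hA : a ∈ AA N p
    · exact h.bok_aa hT hA
    · by_cases hp : a ∈ p.S
      · exact h.bok_p hp hA
      · rcases ha with ha | ha
        · exact absurd ha hp
        · exact h.bok_L ha hp

theorem exists_fq (h : FS ty N N' p r L) : ∃ q, Ok ty q ∧ Le q p ∧ Gn ty N' q := by
  classical
  have hcount : (p.S ∪ L.S).Countable := h.okp.fit.Sc.union h.Lok.fit.Sc
  have hac : ∀ a ∈ p.S ∪ L.S, a.Countable := by
    rintro a (ha | ha)
    · exact h.okp.fit.xc.mono (h.okp.fit.Sx a ha)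
    · exact h.Lok.fit.xc.mono (h.Lok.fit.Sx a ha)
  obtain ⟨η, hη⟩ := bd_hgt hcount hac (bot_lt_w1 (X := X))
  let T : X → X := fun y => if hy : y ∈ N' then cd (r (h.rd y hy).choose) else ⊥
  refine ⟨fq ty N N' p L T η, ?_, h.fq_le_p, h.fq_gn⟩
  refine h.ok_fq (fun y hy => ?_) hη.1 (fun a ha => (hη.2.2 a (Or.inl ha)).le)
    (fun a ha => (hη.2.2 a (Or.inr ha)).le)
  refine ⟨r (h.rd y hy).choose, ?_, h.rok _, h.fq_le_r _, (h.rd y hy).choose_spec⟩
  show (if hy : y ∈ N' then cd (r (h.rd y hy).choose) else ⊥) = _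
  rw [dif_pos hy]

end FS

end Pool.MP_d8f801_lc.SC
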