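import Pool.Agent.Lib.MP_d8f801_lc.SC.G.Trace

/-!
# SC/G: meeting a condition coded in `N` (module G-Meet)

Proof. `trace'`: `Cd ty N (rs r N)`, `Le r (rs r N)`. By `gn_dir` there is `s'` with `Cd ty N s'`, `Le p s'`, `Le s' s` and `Le s' (rs r N)`. Let `N' = nx N γ` (`Gd ty N'` by
`gd_nx`, `Ex N N'` by `ex_club`); `Cd ty N' s'`. `δ < dl N` implies `δ ∈ N ⊆ N'`, `δ < w1` (`dl_sub`, `dl_lt`). `Gd.bd` for `N'` gives `η ∈ N'`, `η < w1`, `δ < η`, `η` above the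
heights of the promises of `r` and `s'`. Let `r' = mx r s' η`. `Fork (rs r N) r s'`: `r.x ∩ s'.x = r.x ∩ N` because `s'.x ⊆ N` (`Gd.x`) and `r.x ∩ N = (rs r N).x ⊆ s'.x`; `bb` from
`trace'`. So `Ok ty r'`, `Le r' r`, `Le r' s'` (`ok_mx`, ...), `cd r' ∈ N'` (`Gd.mx`), `rs r' N = s'` (`rs_mx` with `R = N`). For `α ∈ s.x ⊆ s'.x`, `α ∉ r.x`, `ξ ∈ r.x`, `ξ ∉ N` (so
`ξ ∉ s'.x`) the value is `η` (`mx_new`).
-/

set_option autoImplicit false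

universe u

namespace Pool.MP_d8f801_lc.SC

open Cardinal Set Filter

variable {X : Type u} [Stg X]

theorem step_meet (ty : Bool) : ∀ᶠ N in club X, ∀ γ, Ind N γ → ∀ p : Pre X, Ok ty p → Gn ty N p → ∀ r, Sta ty N γ p r →
    ∀ s, Cd ty N s → Le p s → ∀ δ, δ < dl N → ∃ r', Sta ty N γ p r' ∧ Le r' r ∧ Le r' s ∧
      ∀ α ∈ s.x, α ∉ r.x → ∀ ξ ∈ r.x, ξ ∉ N → δ ≤ r'.F α ξ := by
  filter_upwards [gd_club ty, gd_nx ty, ex_club, trace' ty, gn_dir ty] with N hG hGn hE hT hD γ hγ p hp hgp r hr s hs hps δ hδ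
  have hG' : Gd ty (nx N γ) := hGn γ hγ.1
  have hE' : Ex N (nx N γ) := hE γ hγ
  obtain ⟨t1, t2, t3⟩ := hT γ hγ r hr.1
  obtain ⟨s', hs', hps', hs's, hs'r⟩ := hD p hp hgp s hs (rs r N) t1 hps hr.2
  have hs'N : Cd ty (nx N γ) s' := ⟨hs'.1, hE'.sub hs'.2⟩
  have hδN : δ ∈ N := dl_sub hδ
  have hδw : δ < w1 := hδ.trans (dl_spec hG.ct).2.1
  obtain ⟨η, hη, hηw, hδη, hηr, hηs⟩ := hG'.bd r hr.1 s' hs'N δ (hE'.sub hδN) hδw
  have hs'x : s'.x ⊆ N := hG.x s' hs'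
  have hfork : Fork (rs r N) r s' := by
    refine ⟨t2, hs'r, ?_, fun a ha => (t3 a ha.1 ha.2).1⟩
    apply Subset.antisymm
    · exact fun x hx => ⟨hx.1, hs'x hx.2⟩
    · exact fun x hx => ⟨hx.1, hs'r.x hx⟩
  have hok : Ok ty (mx r s' η) := ok_mx t1.1 hr.1.1 hs'.1 hfork hηw (fun a ha => (hηr a ha).le) (fun a ha => (hηs a ha).le)
  have hle1 : Le (mx r s' η) r := le_mx_left t1.1 hr.1.1 hs'.1 hfork
  have hle2 : Le (mx r s' η) s' := le_mx_right t1.1 hr.1.1 hs'.1 hfork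
  have hrs : rs (mx r s' η) N = s' := rs_mx t1.1 hr.1.1 hs'.1 hfork hs'x rfl
  refine ⟨mx r s' η, ⟨⟨hok, hG'.mx r hr.1 s' hs'N η hη⟩, ?_⟩, hle1, Le.trans' hs.1.fit hle2 hs's, ?_⟩
  · rw [hrs]
    exact hps'
  · intro α hα hαr ξ hξ hξN
    rw [mx_new (Or.inr (hs's.x hα)) (Or.inl hξ) (fun h => hαr h.1) (fun h => hξN (hs'x h.2))]
    exact hδη.le

end Pool.MP_d8f801_lc.SC
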