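import Pool.Agent.Lib.MP_d8f801_lc.SC.G.StepGen
import Pool.Agent.Lib.MP_d8f801_lc.SC.G.Meet

/-!
# SC/G: the sequence of conditions coded in `N[γ]` (module G-SeqG)

* `dep_seq`: enumerate `𝓡` (if it is empty the constant sequence will do: `hr`) by `R : ℕ → (Pre X → Prop)` and choose `r (n + 1)` for
  `R n` and `r n`.
* `exists_gseq`: `dep_seq` for `Q r := Sta ty N γ p r`, `r₀ = emp` (`ok_emp`, `cd emp ∈ N ⊆ nx N γ` by `club_mem` and `nx_sub`, `rs_emp`, `le_emp`) and the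
  countable set of the requirements
  (1) `x ∈ r.x` for `x ∈ nx N γ` (`step_pt`); (2) `DciN ty (nx N γ) y r` for `y ∈ nx N γ` (`step_dci`); (3) `Le r s` for `s` with `Cd ty N s`, `Le p s`
  (`step_meet` with `δ = ⊥`, `⊥ < dl N` as `⊥ ∈ N`, `Tr1 N`; these `s` are countably many: `s = dc (cd s)`, `cd s ∈ N`); (4) for `b ∈ p.S` as in the last
  condition and `ξ ∈ nx N γ`, `ξ ∉ N`: `∃ α ∈ b, dl b ≤ r.F α ξ`: given `r`, let `r₁ ≤ r` with `ξ ∈ r₁.x` (`step_pt`). `b` is not contained in `r₁.x`: otherwise `b ⊆ r₁.x ∩ N =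
  (rs r₁ N).x`, but `Cd ty N (rs r₁ N)` by `trace'` and `Le p (rs r₁ N)`, contradiction. Let `α ∈ b`, `α ∉ r₁.x`; by `gn_pts` there is `s` with `Cd ty N s`, `Le p s`, `α ∈ s.x`;
  `step_meet` for `s`, `δ = dl b` gives `r'` with `dl b ≤ r'.F α ξ`.
-/

set_option autoImplicit false

universe u

namespace Pool.MP_d8f801_lc.SC

open Cardinal Set Filter

variable {X : Type u} [Stg X]

theorem dep_seq {Q : Pre X → Prop} (𝓡 : Set (Pre X → Prop)) (h𝓡 : 𝓡.Countable) (hr : ∀ r, Q r → Le r r)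
    (h : ∀ R ∈ 𝓡, ∀ r, Q r → ∃ r', Q r' ∧ Le r' r ∧ R r') {r₀ : Pre X} (h₀ : Q r₀) :
    ∃ r : ℕ → Pre X, r 0 = r₀ ∧ (∀ n, Q (r n)) ∧ (∀ n, Le (r (n + 1)) (r n)) ∧ ∀ R ∈ 𝓡, ∃ n, R (r n) := by
  rcases 𝓡.eq_empty_or_nonempty with hne | hne
  · refine ⟨fun _ => r₀, rfl, fun _ => h₀, fun _ => hr r₀ h₀, fun R hR => ?_⟩
    rw [hne] at hR
    exact absurd hR (notMem_empty R)
  · obtain ⟨R, hR⟩ := h𝓡.exists_eq_range hne
    have h' : ∀ (n : ℕ) (s : {r : Pre X // Q r}), ∃ s' : {r : Pre X // Q r}, Le s'.1 s.1 ∧ R n s'.1 := by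
      intro n s
      obtain ⟨r', h1, h2, h3⟩ := h (R n) (hR ▸ mem_range_self n) s.1 s.2
      exact ⟨⟨r', h1⟩, h2, h3⟩
    choose g hg1 hg2 using h'
    let f : ℕ → {r : Pre X // Q r} := fun n => Nat.rec ⟨r₀, h₀⟩ (fun k s => g k s) n
    have hf : ∀ n, f (n + 1) = g n (f n) := fun n => rfl
    refine ⟨fun n => (f n).1, rfl, fun n => (f n).2, fun n => ?_, fun R' hR' => ?_⟩
    · show Le (f (n + 1)).1 (f n).1
      rw [hf n]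
      exact hg1 n (f n)
    · rw [hR] at hR'
      obtain ⟨n, rfl⟩ := hR'
      refine ⟨n + 1, ?_⟩
      show R n (f (n + 1)).1
      rw [hf n]
      exact hg2 n (f n)

theorem exists_gseq (ty : Bool) : ∀ᶠ N in club X, ∀ γ, Ind N γ → ∀ p : Pre X, Ok ty p → Gn ty N p →
    ∃ r : ℕ → Pre X, (∀ n, Sta ty N γ p (r n)) ∧ (∀ n, Le (r (n + 1)) (r n)) ∧
      (∀ x ∈ nx N γ, ∃ n, x ∈ (r n).x) ∧ (∀ y ∈ nx N γ, ∃ n, DciN ty (nx N γ) y (r n)) ∧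
      (∀ s, Cd ty N s → Le p s → ∃ n, Le (r n) s) ∧
      ∀ b ∈ p.S, b ⊆ N → (¬ ∃ s, Cd ty N s ∧ Le p s ∧ b ⊆ s.x) → dl b < dl N → ∀ ξ ∈ nx N γ, ξ ∉ N →
        ∃ n, ∃ α ∈ b, dl b ≤ (r n).F α ξ := by
  filter_upwards [step_pt ty, step_dci ty, step_meet ty, trace' ty, gn_pts ty, gd_club ty, nx_sub,
    club_mem (cd (emp : Pre X))] with N hpt hdci hmeet htr hpts hgd hsub hce γ hγ p hp hgn
  have hNc : N.Countable := hgd.ct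
  have hN'c : (nx N γ).Countable := nx_ctbl hNc γ
  have hNN' : N ⊆ nx N γ := (hsub γ hγ.1).1
  have hbot : ⊥ < dl N := hgd.tr ⊥ hgd.b bot_lt_w1
  let R1 : X → Pre X → Prop := fun x r => x ∈ r.x
  let R2 : X → Pre X → Prop := fun y r => DciN ty (nx N γ) y r
  let R3 : Pre X → Pre X → Prop := fun s r => Le r s
  let R4 : Set X × X → Pre X → Prop := fun z r => ∃ α ∈ z.1, dl z.1 ≤ r.F α z.2
  let A3 : Set (Pre X) := {s | Cd ty N s ∧ Le p s}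
  let A4 : Set (Set X × X) := {z | z.1 ∈ p.S ∧ z.2 ∈ nx N γ ∧ z.1 ⊆ N ∧ (¬ ∃ s, Cd ty N s ∧ Le p s ∧ z.1 ⊆ s.x) ∧
    dl z.1 < dl N ∧ z.2 ∉ N}
  have hA3 : A3.Countable := by
    refine (hNc.image dc).mono ?_
    rintro s ⟨h1, h2⟩
    exact ⟨cd s, h1.2, dc_cd h1.1.fitE⟩
  have hA4 : A4.Countable := by
    refine (hp.fit.Sc.prod hN'c).mono ?_
    rintro z ⟨h1, h2, -⟩
    exact ⟨h1, h2⟩
  obtain ⟨r, -, hr1, hr2, hr3⟩ := dep_seq (Q := Sta ty N γ p)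
    (R1 '' nx N γ ∪ R2 '' nx N γ ∪ R3 '' A3 ∪ R4 '' A4)
    ((((hN'c.image R1).union (hN'c.image R2)).union (hA3.image R3)).union (hA4.image R4))
    (fun r hr => Le.refl' hr.1.1.fit) (by
      rintro R (((⟨x, hx, rfl⟩ | ⟨y, hy, rfl⟩) | ⟨s, hs, rfl⟩) | ⟨z, hz, rfl⟩) r hr
      · exact hpt γ hγ p hp hgn r hr x hx
      · exact hdci γ hγ p hp hgn r hr y hy
      · obtain ⟨r', h1, h2, h3, _⟩ := hmeet γ hγ p hp hgn r hr s hs.1 hs.2 ⊥ hbot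
        exact ⟨r', h1, h2, h3⟩
      · obtain ⟨hz1, hz2, hz3, hz4, hz5, hz6⟩ := hz
        obtain ⟨r1, hr1, hl1, hx1⟩ := hpt γ hγ p hp hgn r hr z.2 hz2
        have hnot : ¬ z.1 ⊆ r1.x := by
          intro hsub1
          refine hz4 ⟨rs r1 N, (htr γ hγ r1 hr1.1).1, hr1.2, fun α hα => ?_⟩
          exact ⟨hsub1 hα, hz3 hα⟩
        obtain ⟨α, hα1, hα2⟩ := not_subset.1 hnot
        obtain ⟨s, hs1, hs2, hs3, _⟩ := (hpts p hgn).2 α (hz3 hα1) α (hz3 hα1)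
        obtain ⟨r', h1, h2, h3, h4⟩ := hmeet γ hγ p hp hgn r1 hr1 s hs1 hs2 (dl z.1) hz5
        exact ⟨r', h1, Le.trans' hr.1.1.fit h2 hl1, α, hα1, h4 α hs3 hα2 z.2 hx1 hz6⟩)
    (r₀ := emp) ⟨⟨ok_emp ty, hNN' hce⟩, by rw [rs_emp]; exact le_emp hp⟩
  refine ⟨r, hr1, hr2, fun x hx => ?_, fun y hy => ?_, fun s hs hps => ?_, fun b hb1 hb2 hb3 hb4 ξ hξ1 hξ2 => ?_⟩
  · exact hr3 (R1 x) (Or.inl (Or.inl (Or.inl ⟨x, hx, rfl⟩)))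
  · exact hr3 (R2 y) (Or.inl (Or.inl (Or.inr ⟨y, hy, rfl⟩)))
  · exact hr3 (R3 s) (Or.inl (Or.inr ⟨s, ⟨hs, hps⟩, rfl⟩))
  · exact hr3 (R4 (b, ξ)) (Or.inr ⟨(b, ξ), ⟨hb1, hξ1, hb2, hb3, hb4, hξ2⟩, rfl⟩)

end Pool.MP_d8f801_lc.SC
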