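import Pool.Agent.Lib.MP_d8f801_lc.SC.G.FinOk

/-!
# SC/G: the step (module G-Step)

* `aa_b`: (type B) `a ∈ AA N p`, `p.b a = N`: `N = hul a (N ∩ Iio kk)` (`Bok.b2`).
* `step`: assemble `FS ty N (nx N γ) p r L`: `gd_club`, `gd_nx`, `ex_club`, `gn_pts` (`px`), `gn_F` (`pF`), `Cand`, `hu`: `nx N γ ⊆ hul a (nx N γ ∩ Iio kk)` by `nx_sub_hul` (`N = hul a (N ∩ Iio kk) ⊆ hul a (nx N γ ∩ Iio kk)`,
  `γ ∈ nx N γ` by `nx_sub`, `γ < kk`), and `⊇` by `hul_sub` (`Gd.ev` for `nx N γ`); `exists_gseq`; `trace'` for `rb`; `lim_seq` for `L`; `c4`: `gn_c` and `nx_lift`. Then `exists_fq`.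
-/

set_option autoImplicit false

universe u

namespace Pool.MP_d8f801_lc.SC

open Cardinal Set Filter

variable {X : Type u} [Stg X]

theorem step (ty : Bool) : ∀ᶠ N in club X, ∀ γ, ∀ p : Pre X, Ok ty p → Gn ty N p → Cand N γ p →
    (ty = true → ∀ a ∈ AA N p, p.b a = N) → ∃ q, Ok ty q ∧ Le q p ∧ Gn ty (nx N γ) q := by
  filter_upwards [gd_club ty, gd_nx ty, ex_club, gn_pts ty, gn_F ty, exists_gseq ty, trace' ty, nx_sub,
    nx_lift (gn_c ty)] with N h1 h2 h3 h4 h5 h6 h7 h8 h9 γ p hp hg hc hb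
  have hγ : γ < kk := hc.ind.1
  obtain ⟨r, hr1, hr2, hr3, hr4, hr5, hr6⟩ := h6 γ hc.ind p hp hg
  obtain ⟨L, hL1, hL2, hL3, hL4, hL5⟩ := lim_seq (fun n => (hr1 n).1.1) hr2
  have hFS : FS ty N (nx N γ) p r L :=
    { gd := h1
      gd' := h2 γ hγ
      ex := h3 γ hc.ind
      okp := hp
      gn := hg
      px := (h4 p hg).1
      pF := h5 p hg
      tr := hc.tr
      zr := hc.zr
      lm := hc.lm
      hu := fun ht a ha => by
        subst ht
        have hN : N = hul a (N ∩ Iio kk) := by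
          have h := (hp.bok ha.1).b2
          rw [hb rfl a ha] at h
          exact h
        refine Subset.antisymm ?_ (hul_sub (ha.2.1.trans (h8 γ hγ).1) inter_subset_left (h2 γ hγ).ev)
        refine nx_sub_hul ?_ ⟨(h8 γ hγ).2, hγ⟩
        calc N = hul a (N ∩ Iio kk) := hN
          _ ⊆ hul a (nx N γ ∩ Iio kk) := hul_mono Subset.rfl (inter_subset_inter_left _ (h8 γ hγ).1)
      pb := hb
      rok := fun n => (hr1 n).1
      rle := hr2
      rp := fun n => (hr1 n).2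
      rb := fun n => (h7 γ hc.ind (r n) (hr1 n).1).2.2
      rx := hr3
      rd := hr4
      rs' := hr5
      rk := hr6
      Lok := hL1
      Lle := hL2
      Lx := hL3
      LS := hL4
      Lb := hL5
      c4 := h9 γ hγ }
  exact hFS.exists_fq

end Pool.MP_d8f801_lc.SC
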