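import Pool.Agent.Lib.MP_d8f801_lc.SC.G.Trace

/-!
# SC/G: entering dense sets in `N[γ]` (module G-StepGen)

* `step_gen`. For codes `ζ`, `ξ`, `ξ'` let `G ζ ξ ξ'` be the statement
  `∀ᶠ ν in Uf X, Ok ty (dc (ev ξ' ν)) ∧ cd (dc (ev ξ' ν)) = ev ξ' ν ∧ Le (dc (ev ξ' ν)) (dc (ev ξ ν)) ∧ D (ev ζ ν) (dc (ev ξ' ν))`, and
  `D' ζ ξ s := (∀ᶠ ν in Uf X, Ok ty (dc (ev ξ ν))) → (∃ ξ', G ζ ξ ξ' ∧ Lt ty ξ' = s) ∨ ¬ ∃ r, Ok ty r ∧ Le r s ∧ Le r (Lt ty ξ)`.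
  `D' ζ ξ` is dense: let `q` be a condition, and let the hypothesis of `D'` hold (otherwise `q` will do). If `q` has no common extension with
  `Lt ty ξ` then `q` will do. Otherwise let `s0` be one. By `lim_fork` a.e. `Fork (Lt ty ξ) (dc (ev ξ ν)) s0`, so there is a common extension
  `mx (dc (ev ξ ν)) s0 η` (`ok_mx`, `le_mx_left`, `le_mx_right`, `bd_hgt`), and below it a `q' ν` with `D (ev ζ ν) (q' ν)`. Let `ξ'` be a code of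
  `ν ↦ cd (q' ν)` (`Stg.ev_surj`; `uf_kk`, `dc_cd`). Then `G ζ ξ ξ'`. Let `s = Lt ty ξ'` (`lt_lim`). `Le (q' ν) s0` a.e., so
  `s0.x ⊆ Rt = s.x` and `Le s s0` (`rs_le`, `IsLim.rs`; these hold a.e., so for some `ν`: `Filter.Eventually.exists`). So `Le s q`.
  Now let `N` be in the club, `r` as in the theorem, `cd r = ev ξ γ`, `y = ev ζ γ`, `ξ ζ ∈ N`. `trace`: `rs r N = Lt ty ξ`. `gn_dense2`: there is `s` with `Cd ty N s`, `Le p s`,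
  `D' ζ ξ s`. The second alternative is impossible (`p` is a common extension). So there is `ξ'` with `G ζ ξ ξ'` and `Lt ty ξ' = s`, and by
  `club_choice3` for the relation `R ζ ξ x ξ' := G ζ ξ ξ' ∧ cd (Lt ty ξ') = x` (`x = cd s ∈ N`) we may assume `ξ' ∈ N` (`cd (Lt ty ξ') = cd s`; `Lt ty ξ'` and `s` are conditions,
  so `Lt ty ξ' = s` by `cd_inj`). By `los_fix3` (for the statement inside `G`) it holds at `γ`: `r' = dc (ev ξ' γ)`,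
  `Cd ty (nx N γ) r'`, `Le r' r` (`dc (ev ξ γ) = r`), `D y r'`. `trace` for `r'`: `rs r' N = Lt ty ξ' = s`, so `Le p (rs r' N)`.
* `step_dci`: `step_gen` for `D y q := Dci ty y q`. Dense: if for some `(s, v) ∈ en y` with `Ok ty s` there is a common extension of `q` and `s` take it;
  otherwise `Inc ty y q`. Then `Gd.dec` for `nx N γ` (`gd_nx`).
* `step_pt`: `step_gen` for `D y q := y ∈ q.x` (`ex_pt`).
-/

set_option autoImplicit false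

universe u

namespace Pool.MP_d8f801_lc.SC

open Cardinal Set Filter

variable {X : Type u} [Stg X]

/-- the statement inside `G` -/
private def sgQ (ty : Bool) (D : X → Pre X → Prop) (ζ ξ ξ' ν : X) : Prop :=
  Ok ty (dc (ev ξ' ν)) ∧ cd (dc (ev ξ' ν)) = ev ξ' ν ∧ Le (dc (ev ξ' ν)) (dc (ev ξ ν)) ∧ D (ev ζ ν) (dc (ev ξ' ν))

private def sgD (ty : Bool) (D : X → Pre X → Prop) (ζ ξ : X) (s : Pre X) : Prop :=
  (∀ᶠ ν in Uf X, Ok ty (dc (ev ξ ν))) →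
    (∃ ξ', (∀ᶠ ν in Uf X, sgQ ty D ζ ξ ξ' ν) ∧ Lt ty ξ' = s) ∨ ¬ ∃ r, Ok ty r ∧ Le r s ∧ Le r (Lt ty ξ)

open Classical in
private theorem sg_dense {ty : Bool} (D : X → Pre X → Prop) (hD : ∀ y p, Ok ty p → ∃ q, Ok ty q ∧ Le q p ∧ D y q)
    (ζ ξ : X) (q : Pre X) (hq : Ok ty q) : ∃ s, Ok ty s ∧ Le s q ∧ sgD ty D ζ ξ s := by
  by_cases hξ : ∀ᶠ ν in Uf X, Ok ty (dc (ev ξ ν))
  swap
  · exact ⟨q, hq, Le.refl' hq.fit, fun h => absurd h hξ⟩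
  have hL := lt_lim hξ
  by_cases hc : ∃ r, Ok ty r ∧ Le r q ∧ Le r (Lt ty ξ)
  swap
  · exact ⟨q, hq, Le.refl' hq.fit, fun _ => Or.inr hc⟩
  obtain ⟨s0, h1, h2, h3⟩ := hc
  have h4 := lim_fork hξ hL h1 h3
  have h5 : ∀ᶠ ν in Uf X, ∃ q', Ok ty q' ∧ Le q' (dc (ev ξ ν)) ∧ Le q' s0 ∧ D (ev ζ ν) q' := by
    filter_upwards [h4, hξ] with ν h6 h7
    obtain ⟨η, h8, h9, h10⟩ := bd_hgt (A := (dc (ev ξ ν)).S ∪ s0.S) (h7.fit.Sc.union h1.fit.Sc) (by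
      rintro a (ha | ha)
      · exact h7.Sct a ha
      · exact h1.Sct a ha) (bot_lt_w1 (X := X))
    have h11 : Ok ty (mx (dc (ev ξ ν)) s0 η) := ok_mx hL.ok h7 h1 h6 h8
      (fun a ha => (h10 a (Or.inl ha)).le) (fun a ha => (h10 a (Or.inr ha)).le)
    obtain ⟨q', h12, h13, h14⟩ := hD (ev ζ ν) _ h11
    exact ⟨q', h12, Le.trans' h7.fit h13 (le_mx_left hL.ok h7 h1 h6),
      Le.trans' h1.fit h13 (le_mx_right hL.ok h7 h1 h6), h14⟩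
  obtain ⟨g, hg⟩ : ∃ g : X → Pre X, ∀ ν, (∃ q', Ok ty q' ∧ Le q' (dc (ev ξ ν)) ∧ Le q' s0 ∧ D (ev ζ ν) q') →
      Ok ty (g ν) ∧ Le (g ν) (dc (ev ξ ν)) ∧ Le (g ν) s0 ∧ D (ev ζ ν) (g ν) := by
    refine ⟨fun ν => if h : ∃ q', Ok ty q' ∧ Le q' (dc (ev ξ ν)) ∧ Le q' s0 ∧ D (ev ζ ν) q' then h.choose
      else emp, fun ν h => ?_⟩
    simp only
    rw [dif_pos h]
    exact h.choose_spec
  obtain ⟨ξ', hξ'⟩ := Stg.ev_surj (fun ν => cd (g ν))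
  have h6 : ∀ᶠ ν in Uf X, dc (ev ξ' ν) = g ν ∧ Ok ty (g ν) ∧ Le (g ν) (dc (ev ξ ν)) ∧ Le (g ν) s0 ∧
      D (ev ζ ν) (g ν) ∧ cd (g ν) = ev ξ' ν := by
    filter_upwards [h5, uf_kk] with ν h7 h8
    obtain ⟨h9, h10, h11, h12⟩ := hg ν h7
    refine ⟨?_, h9, h10, h11, h12, (hξ' ν h8).symm⟩
    rw [hξ' ν h8]
    exact dc_cd h9.fitE
  have hG : ∀ᶠ ν in Uf X, sgQ ty D ζ ξ ξ' ν := by
    filter_upwards [h6] with ν h7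
    obtain ⟨h8, h9, h10, _, h12, h13⟩ := h7
    unfold sgQ
    rw [h8]
    exact ⟨h9, h13, h10, h12⟩
  have hL' := lt_lim (hG.mono fun ν h => h.1)
  have hsx : s0.x ⊆ Rt (fun ν => dc (ev ξ' ν)) := by
    intro x hx
    show ∀ᶠ ν in Uf X, x ∈ (dc (ev ξ' ν)).x
    filter_upwards [h6] with ν h7
    rw [h7.1]
    exact h7.2.2.2.1.x hx
  have hle : Le (Lt ty ξ') s0 := by
    obtain ⟨ν, h7, h8⟩ := (hL'.rs.and h6).exists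
    rw [← h7]
    refine rs_le h1.fitE ?_ hsx
    show Le (dc (ev ξ' ν)) s0
    rw [h8.1]
    exact h8.2.2.2.1
  exact ⟨Lt ty ξ', hL'.ok, Le.trans' hq.fit hle h2, fun _ => Or.inl ⟨ξ', hG, rfl⟩⟩

theorem step_gen {ty : Bool} (D : X → Pre X → Prop) (hD : ∀ y p, Ok ty p → ∃ q, Ok ty q ∧ Le q p ∧ D y q) :
    ∀ᶠ N in club X, ∀ γ, Ind N γ → ∀ p, Ok ty p → Gn ty N p → ∀ r, Sta ty N γ p r → ∀ y ∈ nx N γ,
      ∃ r', Sta ty N γ p r' ∧ Le r' r ∧ D y r' := by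
  filter_upwards [trace ty, gn_dense2 (ty := ty) (sgD ty D) (sg_dense D hD),
    club_choice3 (fun ζ ξ x ξ' : X => (∀ᶠ ν in Uf X, sgQ ty D ζ ξ ξ' ν) ∧ cd (Lt ty ξ') = x),
    los_fix3 (sgQ ty D)] with N h1 h2 h3 h4 γ hγ p hp hg r hr y hy
  obtain ⟨⟨hrok, ξ, hξ, hξr⟩, hpr⟩ := hr
  obtain ⟨ζ, hζ, rfl⟩ := hy
  obtain ⟨t1, t2, -, -, -⟩ := h1 γ hγ ξ hξ r hrok hξr.symm
  obtain ⟨s, hs1, hs2, hs3⟩ := h2 p hg ζ hζ ξ hξ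
  rcases hs3 (t1.mono fun ν h => h.1) with ⟨ξ', hG, hs⟩ | hno
  · obtain ⟨ξ2, hξ2, hG2, hcd⟩ := h3 ζ hζ ξ hξ (cd s) hs1.2 ⟨ξ', hG, by rw [hs]⟩
    have hok2 : Ok ty (Lt ty ξ2) := (lt_lim (hG2.mono fun ν h => h.1)).ok
    have hLs : Lt ty ξ2 = s := cd_inj hok2.fitE hs1.1.fitE hcd
    obtain ⟨g1, g2, g3, g4⟩ := (h4 γ hγ ζ hζ ξ hξ ξ2 hξ2).2 hG2
    obtain ⟨-, u2, -, -, -⟩ := h1 γ hγ ξ2 hξ2 (dc (ev ξ2 γ)) g1 g2
    refine ⟨dc (ev ξ2 γ), ⟨⟨g1, ξ2, hξ2, g2.symm⟩, ?_⟩, ?_, g4⟩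
    · rw [u2, hLs]
      exact hs2
    · have : dc (ev ξ γ) = r := by rw [hξr, dc_cd hrok.fitE]
      rw [this] at g3
      exact g3
  · refine absurd ⟨p, hp, hs2, ?_⟩ hno
    rw [← t2]
    exact hpr

theorem dci_dense (ty : Bool) (y : X) (p : Pre X) (hp : Ok ty p) : ∃ q, Ok ty q ∧ Le q p ∧ Dci ty y q := by
  by_cases h : ∃ s v, (s, v) ∈ en y ∧ Ok ty s ∧ ∃ r, Ok ty r ∧ Le r p ∧ Le r s
  · obtain ⟨s, v, h1, h2, r, h3, h4, h5⟩ := h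
    exact ⟨r, h3, h4, Or.inl ⟨s, v, h1, h2, h5⟩⟩
  · exact ⟨p, hp, Le.refl' hp.fit, Or.inr fun s v hs hok hex => h ⟨s, v, hs, hok, hex⟩⟩

theorem step_dci (ty : Bool) : ∀ᶠ N in club X, ∀ γ, Ind N γ → ∀ p : Pre X, Ok ty p → Gn ty N p → ∀ r, Sta ty N γ p r →
    ∀ y ∈ nx N γ, ∃ r', Sta ty N γ p r' ∧ Le r' r ∧ DciN ty (nx N γ) y r' := by
  filter_upwards [step_gen (Dci ty) (dci_dense ty), gd_nx ty] with N h1 h2 γ hγ p hp hg r hr y hy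
  obtain ⟨r', h3, h4, h5⟩ := h1 γ hγ p hp hg r hr y hy
  exact ⟨r', h3, h4, (h2 γ hγ.1).dec y hy r' h3.1 h5⟩

theorem step_pt (ty : Bool) : ∀ᶠ N in club X, ∀ γ, Ind N γ → ∀ p : Pre X, Ok ty p → Gn ty N p → ∀ r, Sta ty N γ p r →
    ∀ y ∈ nx N γ, ∃ r', Sta ty N γ p r' ∧ Le r' r ∧ y ∈ r'.x := by
  exact step_gen (fun y q => y ∈ q.x) (fun y p hp => ex_pt hp y)

end Pool.MP_d8f801_lc.SC
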