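import Pool.Agent.Lib.MP_d8f801_lc.SC.G.SeqG
import Pool.Agent.Lib.MP_d8f801_lc.SC.C.AddN

/-!
# SC/G: generic conditions with `N` as a promise (module G-Top)

Proof. `cd_choice2` for the dense sets (`R y x r' := Le r' (dc x) ∧ Dci ty y r'`, `dci_dense`; `R y x r' := Le r' (dc x) ∧ y ∈ r'.x`, `ex_pt`): for `Cd ty N r`, `y ∈ N` there is `r'` with `Cd ty N r'`, `Le r' r`, `Dci ty y r'` (so `DciN ty N y r'` by `Gd.dec`), and the same for
`y ∈ r'.x`. By `dep_seq` (`Q r := Cd ty N r`, `r₀ = p0`; requirements for `y ∈ N`) there is a decreasing sequence `r n` with `r 0 = p0`, `Cd ty N (r n)`, `N ⊆ ⋃ n, (r n).x` and `DciN ty N y (r n)` for some `n`, for all `y ∈ N`. Let `L` be its limit (`lim_seq`): `L.x = N`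
(`Gd.x`). `q = addN ty L N T` with `T y = cd (r n)`, `n` chosen for `y ∈ N`. `Le q (r n)` by `le_addN` (`Lle`, `Gd.ns`), so `Le q p0` and `Gn ty N q`. `ok_addN`: `N ∉ L.S`: for `a ∈ L.S` `a ∈ (r n).S` for some `n`, so `dl a < dl N` (`Gd.S`). `N` is nonempty, `Tr1 N`. `hle`: for
`a ∈ L.S`, `y ∈ L.b a`, `L.t a y = cd τ`, `OkH true (dl a) τ`: by `Bok.b5` for `L`, `a`, `y` `cd τ' ∈ L.b a` with `L.t a y = cd τ'`, so `cd τ ∈ L.b a ⊆ L.x = N` and `¬ N ⊆ τ.x` by `Gd.ns`. `hB`: `Bok q N`: `q.b N = N`; `b2`: `hul_sub` (`Gd.ev`), `sub_hul`; `b2'`: `lam_spec`: there is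
`γ ∈ Bst N`, `γ < lam N` (the set is not countable, so not empty); `Ind N γ` (definition of `Bst` with `l = []`), so `ξ < γ` for `ξ ∈ N`, `ξ < kk` by `nx_below`; `b3`: `Gd.tr`; `b4`: `gn_c` for `q`; `b5`: `τ = r n`, `OkH` by `Gd.okH`, `Gd.x`.
-/

set_option autoImplicit false

universe u

namespace Pool.MP_d8f801_lc.SC

open Cardinal Set Filter

variable {X : Type u} [Stg X]

theorem exists_top (ty : Bool) : ∀ᶠ N in club X, ∀ p0 : Pre X, Cd ty N p0 → ∃ q, Ok ty q ∧ Le q p0 ∧ Gn ty N q ∧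
    N ∈ q.S ∧ (ty = true → q.b N = N) := by
  classical
  filter_upwards [gd_club ty, cd_choice2 ty (fun y x r' => Le r' (dc x) ∧ Dci ty y r'),
    cd_choice2 ty (fun y x r' => Le r' (dc x) ∧ y ∈ r'.x), gn_c ty, nx_below (X := X)] with N hG h1 h2 hgc hnb p0 hp0
  let R1 : X → Pre X → Prop := fun y r => DciN ty N y r
  let R2 : X → Pre X → Prop := fun y r => y ∈ r.x
  obtain ⟨r, hr0, hrC, hrL, hrR⟩ := dep_seq (Q := Cd ty N) (R1 '' N ∪ R2 '' N)
    ((hG.ct.image R1).union (hG.ct.image R2)) (fun r hr => Le.refl' hr.1.fit) (by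
      rintro R (⟨y, hy, rfl⟩ | ⟨y, hy, rfl⟩) r hr
      · obtain ⟨s, hs1, hs2, hs3⟩ := dci_dense ty y r hr.1
        obtain ⟨r', hr1, hr2, hr3⟩ := h1 y hy (cd r) hr.2 ⟨s, hs1, by rw [dc_cd hr.1.fitE]; exact hs2, hs3⟩
        rw [dc_cd hr.1.fitE] at hr2
        exact ⟨r', hr1, hr2, hG.dec y hy r' hr1 hr3⟩
      · obtain ⟨s, hs1, hs2, hs3⟩ := ex_pt hr.1 y
        obtain ⟨r', hr1, hr2, hr3⟩ := h2 y hy (cd r) hr.2 ⟨s, hs1, by rw [dc_cd hr.1.fitE]; exact hs2, hs3⟩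
        rw [dc_cd hr.1.fitE] at hr2
        exact ⟨r', hr1, hr2, hr3⟩) hp0
  have hdec : ∀ y ∈ N, ∃ n, DciN ty N y (r n) := fun y hy => hrR (R1 y) (Or.inl ⟨y, hy, rfl⟩)
  have hpt : ∀ y ∈ N, ∃ n, y ∈ (r n).x := fun y hy => hrR (R2 y) (Or.inr ⟨y, hy, rfl⟩)
  obtain ⟨L, hLok, hLle, hLx, hLS, hLb⟩ := lim_seq (fun n => (hrC n).1) hrL
  have hx : L.x = N := by
    rw [hLx]
    refine Subset.antisymm (iUnion_subset fun n => hG.x _ (hrC n)) fun y hy => ?_
    obtain ⟨n, hn⟩ := hpt y hy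
    exact mem_iUnion.2 ⟨n, hn⟩
  let T : X → X := fun y => if h : ∃ n, DciN ty N y (r n) then cd (r h.choose) else ⊥
  have hle : ∀ n, Le (addN ty L N T) (r n) := fun n => le_addN (hrC n).1.fit (hLle n) (hG.ns _ (hrC n))
  have hgn : Gn ty N (addN ty L N T) := fun y hy => by
    obtain ⟨n, hn⟩ := hdec y hy
    exact ⟨r n, hrC n, hle n, hn⟩
  have hNS : N ∉ L.S := by
    intro h
    rw [hLS] at h
    obtain ⟨n, hn⟩ := mem_iUnion.1 h
    exact lt_irrefl _ (hG.S _ (hrC n) N hn).2.1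
  have hbN : ty = true → (addN ty L N T).b N = N := by
    intro hty
    change (if N = N then (if ty = true then N else ∅) else L.b N) = N
    rw [if_pos rfl, if_pos hty]
  have hok : Ok ty (addN ty L N T) := by
    refine ok_addN hLok hx hNS ⟨⊥, hG.b⟩ hG.tr ?_ ?_
    · rintro rfl a ha y hy τ ht hτ hLτ
      obtain ⟨τ', hτ1, hτ2, -⟩ := (hLok.bok ha).b5 y hy
      refine hG.ns τ ⟨(okH_iff_ok.1 hτ).1, ?_⟩
      rw [← ht, hτ1]
      exact hx ▸ (hLok.bok ha).bx hτ2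
    · rintro rfl
      have hb : (addN true L N T).b N = N := hbN rfl
      refine ⟨by rw [hb], by rw [hb]; exact hx.symm.subset, ?_, ?_, ?_, ?_, ?_⟩
      · rw [hb]
        exact Subset.antisymm (sub_hul _ _) (hul_sub Subset.rfl inter_subset_left hG.ev)
      · rw [hb]
        intro ξ hξ hξk
        obtain ⟨-, hunc, -⟩ := lam_spec hG.ct
        have hne : (Bst N ∩ Iio (lam N)).Nonempty := by
          by_contra hcon
          rw [not_nonempty_iff_eq_empty] at hcon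
          rw [hcon] at hunc
          exact hunc countable_empty
        obtain ⟨γ, hγ, hγl⟩ := hne
        have hind : Ind N γ := ⟨hγ.1, fun ζ hζ h => hγ.2 ζ hζ [] (by simp) h⟩
        exact ((hnb γ hind).1 ξ hξ hξk).trans hγl
      · rw [hb]
        exact hG.tr
      · rw [hb]
        exact hgc _ hgn
      · intro y hy
        rw [hb] at hy
        have hex := hdec y hy
        have hT : (addN true L N T).t N y = cd (r hex.choose) := by
          change (if N = N then (if true = true ∧ y ∈ N then T y else ⊥) else L.t N y) = _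
          rw [if_pos rfl, if_pos ⟨rfl, hy⟩]
          exact dif_pos hex
        refine ⟨r hex.choose, hT, ?_, hG.okH _ (hrC _), ?_, hle _, ?_⟩
        · rw [hb]
          exact (hrC _).2
        · rw [hb]
          exact hG.x _ (hrC _)
        · rw [hb]
          rcases hex.choose_spec with ⟨s, v, h3, h4, h5, h6⟩ | h3
          · exact Or.inl ⟨s, v, h3, h4.2, h5, hG.okH s h4, h6⟩
          · refine Or.inr fun s v h4 _ h5 => ?_
            rintro ⟨r', -, h6, h7, h8⟩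
            exact h3 s v h4 (okH_iff_ok.1 h5).1 ⟨r', (okH_iff_ok.1 h6).1, h7, h8⟩
  refine ⟨addN ty L N T, hok, ?_, hgn, Or.inl rfl, hbN⟩
  rw [← hr0]
  exact hle 0

end Pool.MP_d8f801_lc.SC
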