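import Pool.Agent.Lib.MP_d8f801_lc.SC.G.Dense

/-!
# SC/G: the trace of a condition coded in `N[γ]` (module G-Trace)

`Lt ty ξ` is the limit of the function from `κ` to conditions with code `ξ`. Proof of `trace`:
`los_fix1` for `Q ξ ν := ∃ r, Ok ty r ∧ cd r = ev ξ ν` (true at `γ`) gives it a.e., and for such `r` `r = dc (ev ξ ν)` (`dc_cd`). So with
`f ν = dc (ev ξ ν)`: `IsLim ty f L`, `L = Lt ty ξ` (`exists_lim`). `N` is closed under `ξ ↦ cd (Lt ty ξ)` (`club_fn`), so `Cd ty N L`, `L.x ⊆ N` (`Gd.x`).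
`los_fix1` for `Q ξ ν := rs (dc (ev ξ ν)) (Lt ty ξ).x = Lt ty ξ ∧ Le (dc (ev ξ ν)) (Lt ty ξ) ∧ ∀ a ∈ (Lt ty ξ).S, (dc (ev ξ ν)).b a = (Lt ty ξ).b a`: true a.e. by
`IsLim`, so at `γ`, where `dc (ev ξ γ) = r`. `r.x ∩ N = L.x`: `⊇`: `Le r L` and `L.x ⊆ N`. `⊆`: let `x ∈ r.x ∩ N`; `los_fix2` for
`Q ξ x ν := x ∈ (dc (ev ξ ν)).x`: true at `γ`, so a.e., so `x ∈ Rt f = L.x`. By `rs_congr` `rs r N = rs r L.x = L` (`r.x ∩ N = L.x = r.x ∩ L.x`).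
If `a ∈ r.S`, `a ⊆ N` then `a ⊆ r.x ∩ N = L.x`, so `a ∈ L.S` (`Le.S`) and `r.b a = L.b a ⊆ L.x ⊆ N` (type A: empty).
-/

set_option autoImplicit false

universe u

namespace Pool.MP_d8f801_lc.SC

open Cardinal Set Filter

variable {X : Type u} [Stg X]

open Classical in
/-- the limit of the function with code `ξ` -/
noncomputable def Lt (ty : Bool) (ξ : X) : Pre X :=
  if h : ∃ L, IsLim ty (fun ν => dc (ev ξ ν)) L then h.choose else emp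

theorem lt_lim {ty : Bool} {ξ : X} (h : ∀ᶠ ν in Uf X, Ok ty (dc (ev ξ ν))) :
    IsLim ty (fun ν => dc (ev ξ ν)) (Lt ty ξ) := by
  have h1 := exists_lim h
  unfold Lt
  rw [dif_pos h1]
  exact h1.choose_spec

theorem trace (ty : Bool) : ∀ᶠ N in club X, ∀ γ, Ind N γ → ∀ ξ ∈ N, ∀ r : Pre X, Ok ty r → cd r = ev ξ γ →
    (∀ᶠ ν in Uf X, Ok ty (dc (ev ξ ν)) ∧ cd (dc (ev ξ ν)) = ev ξ ν) ∧ rs r N = Lt ty ξ ∧ Cd ty N (rs r N) ∧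
      Le r (rs r N) ∧ ∀ a ∈ r.S, a ⊆ N → r.b a = (rs r N).b a ∧ r.b a ⊆ N := by
  filter_upwards [gd_club ty, los_fix1 (fun ξ ν => ∃ r : Pre X, Ok ty r ∧ cd r = ev ξ ν),
    club_fn (fun ξ => cd (Lt ty ξ)),
    los_fix1 (fun ξ ν => rs (dc (ev ξ ν)) (Lt ty ξ).x = Lt ty ξ ∧ Le (dc (ev ξ ν)) (Lt ty ξ) ∧
      ∀ a ∈ (Lt ty ξ).S, (dc (ev ξ ν)).b a = (Lt ty ξ).b a),
    los_fix2 (fun ξ x ν => x ∈ (dc (ev ξ ν)).x)] with N hG h1 h2 h3 h4 γ hγ ξ hξ r hr hcr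
  have a1 : ∀ᶠ ν in Uf X, ∃ r : Pre X, Ok ty r ∧ cd r = ev ξ ν := (h1 γ hγ ξ hξ).1 ⟨r, hr, hcr⟩
  have a2 : ∀ᶠ ν in Uf X, Ok ty (dc (ev ξ ν)) ∧ cd (dc (ev ξ ν)) = ev ξ ν := by
    filter_upwards [a1] with ν hν
    obtain ⟨r', h, h'⟩ := hν
    rw [← h', dc_cd h.fitE]
    exact ⟨h, rfl⟩
  have hdc : dc (ev ξ γ) = r := by rw [← hcr, dc_cd hr.fitE]
  have hL : IsLim ty (fun ν => dc (ev ξ ν)) (Lt ty ξ) := lt_lim (a2.mono fun ν h => h.1)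
  have hCL : Cd ty N (Lt ty ξ) := ⟨hL.ok, h2 ξ hξ⟩
  have hLx : (Lt ty ξ).x ⊆ N := hG.x _ hCL
  have a3 := (h3 γ hγ ξ hξ).2 (by
    filter_upwards [hL.rs, hL.le, hL.lb] with ν e1 e2 e3
    rw [hL.lx]
    exact ⟨e1, e2, e3⟩)
  rw [hdc] at a3
  obtain ⟨b1, b2, b3⟩ := a3
  have hinter : r.x ∩ N = r.x ∩ (Lt ty ξ).x := by
    apply Subset.antisymm
    · rintro x ⟨hx, hxN⟩
      refine ⟨hx, ?_⟩
      rw [hL.lx]
      show ∀ᶠ ν in Uf X, x ∈ (dc (ev ξ ν)).x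
      refine (h4 γ hγ ξ hξ x hxN).1 ?_
      rw [hdc]
      exact hx
    · exact inter_subset_inter_right _ hLx
  have hrs : rs r N = Lt ty ξ := (rs_congr hr.fitE hinter).trans b1
  rw [hrs]
  refine ⟨a2, rfl, hCL, b2, fun a ha haN => ?_⟩
  have haL : a ⊆ (Lt ty ξ).x := fun z hz => by
    have h5 : z ∈ r.x ∩ N := ⟨hr.fit.Sx a ha hz, haN hz⟩
    rw [hinter] at h5
    exact h5.2
  have haS : a ∈ (Lt ty ξ).S := (b2.S a haL).1 ha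
  have e : r.b a = (Lt ty ξ).b a := b3 a haS
  refine ⟨e, ?_⟩
  rw [e]
  have hfit := hL.ok.fit
  cases ty with
  | false =>
    rw [hfit.b0 a (Or.inl rfl)]
    exact empty_subset _
  | true => exact (hfit.B1 rfl a haS).2.trans hLx

/-- the part without codes (proved) -/
theorem trace' (ty : Bool) : ∀ᶠ N in club X, ∀ γ, Ind N γ → ∀ r : Pre X, Cd ty (nx N γ) r → Cd ty N (rs r N) ∧
      Le r (rs r N) ∧ ∀ a ∈ r.S, a ⊆ N → r.b a = (rs r N).b a ∧ r.b a ⊆ N := by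
  filter_upwards [trace ty] with N hN γ hγ r hr
  obtain ⟨ξ, hξ, h⟩ := hr.2
  exact (hN γ hγ ξ hξ r hr.1 h.symm).2.2

end Pool.MP_d8f801_lc.SC
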